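import Pool.Agent.L7h21.Sq.C87P0
import Pool.Agent.L7h21.Sq.C87P1
import Pool.Agent.L7h21.Sq.C87P2
import Pool.Agent.L7h21.Sq.C87P3
import Pool.Agent.L7h21.Sq.C87P4
import Pool.Agent.L7h21.Sq.C87P5
import Pool.Agent.L7h21.Sq.C87P6
import Pool.Agent.L7h21.Sq.C87P7
import Pool.Agent.L7h21.Sq.C87P8
import Pool.Agent.L7h21.Sq.C87P9
import Pool.Agent.L7h21.Sq.C87P10
import Pool.Agent.L7h21.Sq.C87P11
import Pool.Agent.L7h21.Sq.C87P12
import Pool.Agent.L7h21.Sq.C87P13
import Pool.Agent.L7h21.Sq.C87P14
import Pool.Agent.L7h21.Sq.C87P15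
import Pool.Agent.L7h21.Sq.C87P16
import Pool.Agent.L7h21.Sq.C87P17
import Pool.Agent.L7h21.Sq.C87P18
import Pool.Agent.L7h21.Sq.C87P19
import Pool.Agent.L7h21.Sq.C87P20
import Pool.Agent.L7h21.Sq.C87P21
import Pool.Agent.L7h21.Sq.C87P22
import Pool.Agent.L7h21.Sq.C87P23
import Pool.Agent.L7h21.Sq.C87P24
import Pool.Agent.L7h21.Sq.C87P25
import Pool.Agent.L7h21.Sq.C87P26
import Pool.Agent.L7h21.Sq.C87P27
import Pool.Agent.L7h21.Sq.C87P28
import Pool.Agent.L7h21.Sq.C87P29
import Pool.Agent.L7h21.Sq.C87P30

/-!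
# The certificate
-/

set_option autoImplicit false
set_option maxRecDepth 100000

namespace Pool.Agent.L7h21.Sq.C87

/-- part of the certificate -/
def t0 : Tr := .nd 8 false 1030 C87P1.tree C87P2.tree

theorem k0 : check 870 9 [(183, 236, -29, 29), (-81, 81, -81, 81), (60, 163, -60, 60), (-81, 81, -81, 81), (-145, 27, -79, 79), (-81, 81, -81, 81), (-136, 136, -89, 89), (-81, 81, -81, 81), (-132, 132, -94, 94)] t0 = true :=
  check_nd (by decide) (by decide) C87P1.ok C87P2.ok

/-- part of the certificate -/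
def t1 : Tr := .nd 3 false 1021 C87P3.tree C87P4.tree

theorem k1 : check 870 9 [(183, 236, -29, 29), (-81, 81, -81, 81), (60, 163, -60, 60), (-81, 81, -81, 81), (27, 145, -79, 79), (-81, 81, -81, 81), (-136, -34, -89, 89), (-81, 81, -81, 81), (-132, -27, -94, 94)] t1 = true :=
  check_nd (by decide) (by decide) C87P3.ok C87P4.ok

/-- part of the certificate -/
def t2 : Tr := .nd 8 false 973 t1 C87P5.tree

theorem k2 : check 870 9 [(183, 236, -29, 29), (-81, 81, -81, 81), (60, 163, -60, 60), (-81, 81, -81, 81), (27, 145, -79, 79), (-81, 81, -81, 81), (-136, -34, -89, 89), (-81, 81, -81, 81), (-132, 25, -94, 94)] t2 = true :=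
  check_nd (by decide) (by decide) k1 C87P5.ok

/-- part of the certificate -/
def t3 : Tr := .nd 6 false 966 t2 C87P6.tree

theorem k3 : check 870 9 [(183, 236, -29, 29), (-81, 81, -81, 81), (60, 163, -60, 60), (-81, 81, -81, 81), (27, 145, -79, 79), (-81, 81, -81, 81), (-136, 21, -89, 89), (-81, 81, -81, 81), (-132, 25, -94, 94)] t3 = true :=
  check_nd (by decide) (by decide) k2 C87P6.ok

/-- part of the certificate -/
def t4 : Tr := .nd 8 false 1025 t3 C87P7.tree

theorem k4 : check 870 9 [(183, 236, -29, 29), (-81, 81, -81, 81), (60, 163, -60, 60), (-81, 81, -81, 81), (27, 145, -79, 79), (-81, 81, -81, 81), (-136, 21, -89, 89), (-81, 81, -81, 81), (-132, 132, -94, 94)] t4 = true :=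
  check_nd (by decide) (by decide) k3 C87P7.ok

/-- part of the certificate -/
def t5 : Tr := .nd 5 true 1031 C87P8.tree C87P9.tree

theorem k5 : check 870 9 [(183, 236, -29, 29), (-81, 81, -81, 81), (60, 163, -60, 60), (-81, 81, -81, 81), (27, 145, -79, 79), (-81, 81, -81, 81), (21, 136, -89, 89), (-81, -16, -81, 81), (-132, -33, -94, 94)] t5 = true :=
  check_nd (by decide) (by decide) C87P8.ok C87P9.ok

/-- part of the certificate -/
def t6 : Tr := .nd 8 false 909 C87P12.tree C87P13.tree

theorem k6 : check 870 9 [(183, 236, -29, 29), (39, 81, -81, 81), (60, 163, -60, 60), (-81, 30, -81, 81), (68, 145, -79, 79), (-81, 22, -81, 81), (21, 136, -89, 89), (-16, 81, -81, 81), (-132, -33, -94, 94)] t6 = true :=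
  check_nd (by decide) (by decide) C87P12.ok C87P13.ok

/-- part of the certificate -/
def t7 : Tr := .nd 4 false 1068 C87P11.tree t6

theorem k7 : check 870 9 [(183, 236, -29, 29), (39, 81, -81, 81), (60, 163, -60, 60), (-81, 30, -81, 81), (27, 145, -79, 79), (-81, 22, -81, 81), (21, 136, -89, 89), (-16, 81, -81, 81), (-132, -33, -94, 94)] t7 = true :=
  check_nd (by decide) (by decide) C87P11.ok k6

/-- part of the certificate -/
def t8 : Tr := .nd 5 false 1022 t7 C87P14.tree

theorem k8 : check 870 9 [(183, 236, -29, 29), (39, 81, -81, 81), (60, 163, -60, 60), (-81, 30, -81, 81), (27, 145, -79, 79), (-81, 81, -81, 81), (21, 136, -89, 89), (-16, 81, -81, 81), (-132, -33, -94, 94)] t8 = true :=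
  check_nd (by decide) (by decide) k7 C87P14.ok

/-- part of the certificate -/
def t9 : Tr := .nd 1 false 1039 C87P10.tree t8

theorem k9 : check 870 9 [(183, 236, -29, 29), (-81, 81, -81, 81), (60, 163, -60, 60), (-81, 30, -81, 81), (27, 145, -79, 79), (-81, 81, -81, 81), (21, 136, -89, 89), (-16, 81, -81, 81), (-132, -33, -94, 94)] t9 = true :=
  check_nd (by decide) (by decide) C87P10.ok k8

/-- part of the certificate -/
def t10 : Tr := .nd 1 false 1040 C87P15.tree C87P16.tree

theorem k10 : check 870 9 [(183, 236, -29, 29), (-81, 81, -81, 81), (60, 163, -60, 60), (30, 81, -81, 81), (27, 145, -79, 79), (-81, 81, -81, 81), (21, 136, -89, 89), (-16, 81, -81, 81), (-132, -33, -94, 94)] t10 = true :=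
  check_nd (by decide) (by decide) C87P15.ok C87P16.ok

/-- part of the certificate -/
def t11 : Tr := .nd 3 false 1030 t9 t10

theorem k11 : check 870 9 [(183, 236, -29, 29), (-81, 81, -81, 81), (60, 163, -60, 60), (-81, 81, -81, 81), (27, 145, -79, 79), (-81, 81, -81, 81), (21, 136, -89, 89), (-16, 81, -81, 81), (-132, -33, -94, 94)] t11 = true :=
  check_nd (by decide) (by decide) k9 k10

/-- part of the certificate -/
def t12 : Tr := .nd 7 false 984 t5 t11

theorem k12 : check 870 9 [(183, 236, -29, 29), (-81, 81, -81, 81), (60, 163, -60, 60), (-81, 81, -81, 81), (27, 145, -79, 79), (-81, 81, -81, 81), (21, 136, -89, 89), (-81, 81, -81, 81), (-132, -33, -94, 94)] t12 = true :=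
  check_nd (by decide) (by decide) k5 k11

/-- part of the certificate -/
def t13 : Tr := .nd 8 false 967 t12 C87P17.tree

theorem k13 : check 870 9 [(183, 236, -29, 29), (-81, 81, -81, 81), (60, 163, -60, 60), (-81, 81, -81, 81), (27, 145, -79, 79), (-81, 81, -81, 81), (21, 136, -89, 89), (-81, 81, -81, 81), (-132, 28, -94, 94)] t13 = true :=
  check_nd (by decide) (by decide) k12 C87P17.ok

/-- part of the certificate -/
def t14 : Tr := .nd 3 false 1034 C87P19.tree C87P20.tree

theorem k14 : check 870 9 [(183, 236, -29, 29), (39, 81, -81, 81), (60, 163, -60, 60), (-81, 81, -81, 81), (27, 145, -79, 79), (-81, 81, -81, 81), (21, 136, -89, 89), (-81, 81, -81, 34), (28, 132, -94, -3)] t14 = true :=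
  check_nd (by decide) (by decide) C87P19.ok C87P20.ok

/-- part of the certificate -/
def t15 : Tr := .nd 1 false 1039 C87P18.tree t14

theorem k15 : check 870 9 [(183, 236, -29, 29), (-81, 81, -81, 81), (60, 163, -60, 60), (-81, 81, -81, 81), (27, 145, -79, 79), (-81, 81, -81, 81), (21, 136, -89, 89), (-81, 81, -81, 34), (28, 132, -94, -3)] t15 = true :=
  check_nd (by decide) (by decide) C87P18.ok k14

/-- part of the certificate -/
def t16 : Tr := .nd 3 false 1027 C87P22.tree C87P23.tree

theorem k16 : check 870 9 [(183, 236, -29, 29), (39, 81, -81, 81), (60, 163, -60, 60), (-81, 81, -81, 81), (27, 145, -79, 79), (-81, 23, -81, 81), (21, 136, -89, 9), (-81, 81, 34, 81), (28, 132, -94, -3)] t16 = true :=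
  check_nd (by decide) (by decide) C87P22.ok C87P23.ok

/-- part of the certificate -/
def t17 : Tr := .nd 1 false 1039 C87P21.tree t16

theorem k17 : check 870 9 [(183, 236, -29, 29), (-81, 81, -81, 81), (60, 163, -60, 60), (-81, 81, -81, 81), (27, 145, -79, 79), (-81, 23, -81, 81), (21, 136, -89, 9), (-81, 81, 34, 81), (28, 132, -94, -3)] t17 = true :=
  check_nd (by decide) (by decide) C87P21.ok k16

/-- part of the certificate -/
def t18 : Tr := .nd 5 true 1029 C87P25.tree C87P26.tree

theorem k18 : check 870 9 [(183, 236, -29, 29), (38, 81, -81, 81), (60, 163, -60, 60), (-81, 31, -81, 81), (27, 145, -79, 79), (23, 81, -81, 81), (21, 136, -89, 9), (-81, 81, 34, 81), (28, 132, -94, -3)] t18 = true :=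
  check_nd (by decide) (by decide) C87P25.ok C87P26.ok

/-- part of the certificate -/
def t19 : Tr := .nd 1 false 1038 C87P24.tree t18

theorem k19 : check 870 9 [(183, 236, -29, 29), (-81, 81, -81, 81), (60, 163, -60, 60), (-81, 31, -81, 81), (27, 145, -79, 79), (23, 81, -81, 81), (21, 136, -89, 9), (-81, 81, 34, 81), (28, 132, -94, -3)] t19 = true :=
  check_nd (by decide) (by decide) C87P24.ok k18

/-- part of the certificate -/
def t20 : Tr := .nd 3 false 1031 t19 C87P27.tree

theorem k20 : check 870 9 [(183, 236, -29, 29), (-81, 81, -81, 81), (60, 163, -60, 60), (-81, 81, -81, 81), (27, 145, -79, 79), (23, 81, -81, 81), (21, 136, -89, 9), (-81, 81, 34, 81), (28, 132, -94, -3)] t20 = true :=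
  check_nd (by decide) (by decide) k19 C87P27.ok

/-- part of the certificate -/
def t21 : Tr := .nd 5 false 1023 t17 t20

theorem k21 : check 870 9 [(183, 236, -29, 29), (-81, 81, -81, 81), (60, 163, -60, 60), (-81, 81, -81, 81), (27, 145, -79, 79), (-81, 81, -81, 81), (21, 136, -89, 9), (-81, 81, 34, 81), (28, 132, -94, -3)] t21 = true :=
  check_nd (by decide) (by decide) k17 k20

/-- part of the certificate -/
def t22 : Tr := .nd 6 true 1009 t21 C87P28.tree

theorem k22 : check 870 9 [(183, 236, -29, 29), (-81, 81, -81, 81), (60, 163, -60, 60), (-81, 81, -81, 81), (27, 145, -79, 79), (-81, 81, -81, 81), (21, 136, -89, 89), (-81, 81, 34, 81), (28, 132, -94, -3)] t22 = true :=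
  check_nd (by decide) (by decide) k21 C87P28.ok

/-- part of the certificate -/
def t23 : Tr := .nd 7 true 1034 t15 t22

theorem k23 : check 870 9 [(183, 236, -29, 29), (-81, 81, -81, 81), (60, 163, -60, 60), (-81, 81, -81, 81), (27, 145, -79, 79), (-81, 81, -81, 81), (21, 136, -89, 89), (-81, 81, -81, 81), (28, 132, -94, -3)] t23 = true :=
  check_nd (by decide) (by decide) k15 k22

/-- part of the certificate -/
def t24 : Tr := .nd 7 false 1021 C87P29.tree C87P30.tree

theorem k24 : check 870 9 [(183, 236, -29, 29), (-81, 81, -81, 81), (60, 163, -60, 60), (-81, 81, -81, 81), (27, 145, -79, 79), (-81, 81, -81, 81), (21, 136, -89, 89), (-81, 81, -81, 81), (28, 132, -3, 94)] t24 = true :=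
  check_nd (by decide) (by decide) C87P29.ok C87P30.ok

/-- part of the certificate -/
def t25 : Tr := .nd 8 true 997 t23 t24

theorem k25 : check 870 9 [(183, 236, -29, 29), (-81, 81, -81, 81), (60, 163, -60, 60), (-81, 81, -81, 81), (27, 145, -79, 79), (-81, 81, -81, 81), (21, 136, -89, 89), (-81, 81, -81, 81), (28, 132, -94, 94)] t25 = true :=
  check_nd (by decide) (by decide) k23 k24

/-- part of the certificate -/
def t26 : Tr := .nd 8 false 1028 t13 t25

theorem k26 : check 870 9 [(183, 236, -29, 29), (-81, 81, -81, 81), (60, 163, -60, 60), (-81, 81, -81, 81), (27, 145, -79, 79), (-81, 81, -81, 81), (21, 136, -89, 89), (-81, 81, -81, 81), (-132, 132, -94, 94)] t26 = true :=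
  check_nd (by decide) (by decide) k13 k25

/-- part of the certificate -/
def t27 : Tr := .nd 6 false 1021 t4 t26

theorem k27 : check 870 9 [(183, 236, -29, 29), (-81, 81, -81, 81), (60, 163, -60, 60), (-81, 81, -81, 81), (27, 145, -79, 79), (-81, 81, -81, 81), (-136, 136, -89, 89), (-81, 81, -81, 81), (-132, 132, -94, 94)] t27 = true :=
  check_nd (by decide) (by decide) k4 k26

/-- part of the certificate -/
def t28 : Tr := .nd 4 false 1027 t0 t27

theorem k28 : check 870 9 [(183, 236, -29, 29), (-81, 81, -81, 81), (60, 163, -60, 60), (-81, 81, -81, 81), (-145, 145, -79, 79), (-81, 81, -81, 81), (-136, 136, -89, 89), (-81, 81, -81, 81), (-132, 132, -94, 94)] t28 = true :=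
  check_nd (by decide) (by decide) k0 k27

/-- part of the certificate -/
def t29 : Tr := .nd 2 false 1060 C87P0.tree t28

theorem k29 : check 870 9 [(183, 236, -29, 29), (-81, 81, -81, 81), (-163, 163, -60, 60), (-81, 81, -81, 81), (-145, 145, -79, 79), (-81, 81, -81, 81), (-136, 136, -89, 89), (-81, 81, -81, 81), (-132, 132, -94, 94)] t29 = true :=
  check_nd (by decide) (by decide) C87P0.ok k28

/-- the certificate -/
def tree : Tr := t29

/-- the boxes of the root -/
def root : List Box := [(183, 236, -29, 29), (-81, 81, -81, 81), (-163, 163, -60, 60), (-81, 81, -81, 81), (-145, 145, -79, 79), (-81, 81, -81, 81), (-136, 136, -89, 89), (-81, 81, -81, 81), (-132, 132, -94, 94)]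

theorem ok : check 870 9 root tree = true :=
  k29

end Pool.Agent.L7h21.Sq.C87
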