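import Pool.Agent.L7h21.Sq.Trig

/-!
# The certificate checker

A certificate is a binary tree.  Its inner nodes split a box in the space of the Fourier
coefficients `y_1, …, y_J` of a probability measure on `[0, 1]`, its leaves prove that there are no
such coefficients in the box of the leaf.
-/

set_option autoImplicit false

namespace Pool.Agent.L7h21.Sq

/-- lower and upper bounds for the two coordinates, multiplied by `200` -/
abbrev Box := ℤ × ℤ × ℤ × ℤ

/-- the maximum of `-C y ^ 2 + E y` between `lo` and `hi` -/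
def cmax (C E lo hi : ℤ) : ℤ :=
  if E ≤ 2 * C * lo then -C * lo * lo + E * lo
  else if 2 * C * hi ≤ E then -C * hi * hi + E * hi
  else E * E / (4 * C) + 1

lemma cmax_spec {C E lo hi : ℤ} (hC : 0 ≤ C) {y : ℝ} (h1 : (lo : ℝ) ≤ y) (h2 : y ≤ hi) :
    -C * y ^ 2 + E * y ≤ (cmax C E lo hi : ℤ) := by
  have hCR : (0 : ℝ) ≤ C := by exact_mod_cast hC
  unfold cmax
  split_ifs with h3 h4
  · have h3R : (E : ℝ) ≤ 2 * C * lo := by exact_mod_cast h3
    push_cast
    have h5 : (y - lo) * (E - C * (y + lo)) ≤ 0 := by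
      apply mul_nonpos_of_nonneg_of_nonpos (by linarith)
      nlinarith
    nlinarith
  · have h4R : 2 * (C : ℝ) * hi ≤ E := by exact_mod_cast h4
    push_cast
    have h5 : (y - hi) * (E - C * (y + hi)) ≤ 0 := by
      apply mul_nonpos_of_nonpos_of_nonneg (by linarith)
      nlinarith
    nlinarith
  · push Not at h3 h4
    have hlo : lo ≤ hi := by
      have : (lo : ℝ) ≤ hi := h1.trans h2
      exact_mod_cast this
    have hCpos : 0 < C := by
      by_contra hcon
      have : C = 0 := by omega
      subst this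
      simp at h3 h4
      omega
    have hCR' : (0 : ℝ) < C := by exact_mod_cast hCpos
    have h5 : E * E < (E * E / (4 * C) + 1) * (4 * C) := by
      have := Int.lt_ediv_add_one_mul_self (E * E) (show 0 < 4 * C by omega)
      exact this
    have h5R : (E : ℝ) * E < ((E * E / (4 * C) + 1 : ℤ) : ℝ) * (4 * C) := by exact_mod_cast h5
    set t : ℝ := ((E * E / (4 * C) + 1 : ℤ) : ℝ)
    have h6 : 0 ≤ (E - 2 * C * y) ^ 2 := sq_nonneg _
    have h7 : (4 * (C : ℝ)) * (-C * y ^ 2 + E * y) ≤ (4 * C) * t := by nlinarith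
    exact le_of_mul_le_mul_left h7 (by positivity)

/-- an upper bound for `200 (A x + B y) + C (x ^ 2 - y ^ 2) + D x y` on a box -/
def hmax (A B C D : ℤ) (b : Box) : ℤ :=
  if 0 ≤ C then
    max (200 * A * b.1 + C * b.1 * b.1 + cmax C (200 * B + D * b.1) b.2.2.1 b.2.2.2)
      (200 * A * b.2.1 + C * b.2.1 * b.2.1 + cmax C (200 * B + D * b.2.1) b.2.2.1 b.2.2.2)
  else
    max (200 * B * b.2.2.1 + (-C) * b.2.2.1 * b.2.2.1 +
        cmax (-C) (200 * A + D * b.2.2.1) b.1 b.2.1)
      (200 * B * b.2.2.2 + (-C) * b.2.2.2 * b.2.2.2 +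
        cmax (-C) (200 * A + D * b.2.2.2) b.1 b.2.1)

lemma convex_le_max {C e x p q : ℝ} (hC : 0 ≤ C) (h1 : p ≤ x) (h2 : x ≤ q) :
    C * x ^ 2 + e * x ≤ max (C * p ^ 2 + e * p) (C * q ^ 2 + e * q) := by
  rw [le_max_iff]
  by_contra hcon
  push Not at hcon
  obtain ⟨h3, h4⟩ := hcon
  have h5 : 0 < (x - p) * (C * (x + p) + e) := by nlinarith
  have h6 : 0 < C * (x + p) + e := by
    by_contra h
    push Not at h
    nlinarith [mul_nonneg (sub_nonneg.2 h1) (sub_nonneg.2 h)]
  have h7 : 0 ≤ (q - x) * (C * (q + x) + e) := by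
    apply mul_nonneg (by linarith)
    nlinarith
  nlinarith

lemma hmax_spec (A B C D : ℤ) (b : Box) {x y : ℝ} (h1 : (b.1 : ℝ) ≤ x) (h2 : x ≤ b.2.1)
    (h3 : (b.2.2.1 : ℝ) ≤ y) (h4 : y ≤ b.2.2.2) :
    200 * (A * x + B * y) + C * (x ^ 2 - y ^ 2) + D * (x * y) ≤ (hmax A B C D b : ℤ) := by
  unfold hmax
  split_ifs with hC
  · have hCR : (0 : ℝ) ≤ C := by exact_mod_cast hC
    have h5 := convex_le_max (e := 200 * A + D * y) hCR h1 h2
    rw [Int.cast_max]
    have h6 := cmax_spec (E := 200 * B + D * b.1) hC h3 h4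
    have h7 := cmax_spec (E := 200 * B + D * b.2.1) hC h3 h4
    push_cast at h6 h7 ⊢
    rcases le_max_iff.1 h5 with h | h
    · apply le_max_of_le_left
      nlinarith
    · apply le_max_of_le_right
      nlinarith
  · have hC' : 0 ≤ -C := by omega
    have hCR : (0 : ℝ) ≤ -C := by exact_mod_cast hC'
    have h5 := convex_le_max (e := 200 * B + D * x) hCR h3 h4
    rw [Int.cast_max]
    have h6 := cmax_spec (E := 200 * A + D * b.2.2.1) hC' h1 h2
    have h7 := cmax_spec (E := 200 * A + D * b.2.2.2) hC' h1 h2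
    push_cast at h6 h7 ⊢
    rcases le_max_iff.1 h5 with h | h
    · apply le_max_of_le_left
      nlinarith
    · apply le_max_of_le_right
      nlinarith

/-- the coordinates of a complex number; `o` stands for an odd index -/
noncomputable def crd (o : Bool) (w : ℂ) : ℝ × ℝ :=
  if o then (200 * (w.re + w.im), 200 * (w.im - w.re)) else (200 * w.re, 200 * w.im)

/-- the sequence `y` lies in the boxes -/
def InB : Bool → List Box → (ℕ → ℂ) → Prop
  | _, [], _ => True
  | o, b :: bs, y => (((b.1 : ℝ) ≤ (crd o (y 0)).1 ∧ (crd o (y 0)).1 ≤ b.2.1) ∧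
      ((b.2.2.1 : ℝ) ≤ (crd o (y 0)).2 ∧ (crd o (y 0)).2 ≤ b.2.2.2)) ∧
      InB (!o) bs (fun n => y (n + 1))

/-- the bound for one index -/
def hOne (o : Bool) (m r : ℤ × ℤ) (b : Box) : ℤ :=
  if o then hmax (m.1 + m.2) (m.2 - m.1) r.2 (-2 * r.1) b
  else hmax (2 * m.1) (2 * m.2) (2 * r.1) (4 * r.2) b

/-- the sum of the bounds -/
def sumH : Bool → List Box → List (ℤ × ℤ) → List (ℤ × ℤ) → ℤ
  | o, b :: bs, m :: ms, r :: rs => hOne o m r b + sumH (!o) bs ms rs
  | _, _, _, _ => 0

lemma hOne_spec (o : Bool) (m r : ℤ × ℤ) (b : Box) (w : ℂ)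
    (h : (((b.1 : ℝ) ≤ (crd o w).1 ∧ (crd o w).1 ≤ b.2.1) ∧
      ((b.2.2.1 : ℝ) ≤ (crd o w).2 ∧ (crd o w).2 ≤ b.2.2.2))) :
    40000 * (2 * (m.1 * w.re + m.2 * w.im) + 2 * (r.1 * (w ^ 2).re + r.2 * (w ^ 2).im)) ≤
      (hOne o m r b : ℤ) := by
  obtain ⟨⟨ha, hb⟩, hc, hd⟩ := h
  have e1 : (w ^ 2).re = w.re * w.re - w.im * w.im := by rw [sq, Complex.mul_re]
  have e2 : (w ^ 2).im = w.re * w.im + w.im * w.re := by rw [sq, Complex.mul_im]
  rw [e1, e2]
  unfold hOne
  cases o with
  | true =>
    simp only [crd, if_true] at ha hb hc hd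
    rw [if_pos rfl]
    have := hmax_spec (m.1 + m.2) (m.2 - m.1) r.2 (-2 * r.1) b ha hb hc hd
    push_cast at this
    refine le_trans (le_of_eq ?_) this
    ring
  | false =>
    simp only [crd] at ha hb hc hd
    rw [if_neg (by decide)] at ha hb hc hd
    rw [if_neg (by decide)]
    have := hmax_spec (2 * m.1) (2 * m.2) (2 * r.1) (4 * r.2) b ha hb hc hd
    push_cast at this
    refine le_trans (le_of_eq ?_) this
    ring

lemma sumH_spec (o : Bool) (bs : List Box) (ms rs : List (ℤ × ℤ)) (y : ℕ → ℂ)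
    (hm : ms.length = bs.length) (hr : rs.length = bs.length) (h : InB o bs y) :
    40000 * (2 * lin ms y + 2 * lin rs (fun n => y n ^ 2)) ≤ (sumH o bs ms rs : ℤ) := by
  induction bs generalizing o ms rs y with
  | nil =>
    simp only [List.length_nil, List.length_eq_zero_iff] at hm hr
    subst hm hr
    simp [lin, sumH]
  | cons b bs ih =>
    cases ms with
    | nil => simp at hm
    | cons m ms =>
      cases rs with
      | nil => simp at hr
      | cons r rs =>
        simp only [List.length_cons, Nat.add_right_cancel_iff] at hm hr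
        have h3 := ih (!o) ms rs (fun n => y (n + 1)) hm hr h.2
        have h4 := hOne_spec o m r b (y 0) h.1
        simp only [lin, sumH]
        push_cast
        linarith

/-- the sum of the odd imaginary coefficients divided by the index, times `3465` -/
def sumB : Bool → ℕ → List (ℤ × ℤ) → ℤ
  | _, _, [] => 0
  | o, j, r :: rs => (if o then r.2 * (3465 / j : ℕ) else 0) + sumB (!o) (j + 1) rs

/-- the Fourier coefficients of the interval `[0, 1]`, starting from the index `j` -/
noncomputable def aseq (j : ℕ) : ℂ :=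
  if j = 0 then 1 else if j % 2 = 1 then ((2 / (Real.pi * j) : ℝ) : ℂ) * Complex.I else 0

lemma sumB_spec (rs : List (ℤ × ℤ)) : ∀ (o : Bool) (j : ℕ), 1 ≤ j → j + rs.length ≤ 12 →
    (o = true ↔ j % 2 = 1) →
    3465 * lin rs (fun n => aseq (n + j)) = 2 / Real.pi * (sumB o j rs : ℤ) := by
  induction rs with
  | nil => intro o j h1 h2 h3; simp [lin, sumB]
  | cons r rs ih =>
    intro o j hj1 hj2 ho
    have h4 : ((!o) = true ↔ (j + 1) % 2 = 1) := by
      cases o with
      | true => simp at ho ⊢; omega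
      | false => simp at ho ⊢; omega
    have h5 := ih (!o) (j + 1) (by omega) (by simp at hj2; omega) h4
    simp only [lin, sumB]
    have e1 : (fun n => aseq (n + 1 + j)) = (fun n => aseq (n + (j + 1))) := by
      funext n; congr 1; omega
    rw [e1, mul_add, h5]
    have hpi := Real.pi_pos
    have h10 : (j : ℝ) ≤ 3465 := by
      have : j ≤ 3465 := by simp at hj2; omega
      exact_mod_cast this
    rw [Int.cast_add, mul_add]
    unfold aseq
    rw [Nat.zero_add, if_neg (by omega)]
    cases o with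
    | true =>
      have h6 : j % 2 = 1 := ho.1 rfl
      rw [if_pos h6]
      simp only [if_true]
      have h7 : (3465 : ℝ) = ((3465 / j : ℕ) : ℝ) * j := by
        have h8 : j ≤ 11 := by simp at hj2; omega
        have h9 : 3465 = 3465 / j * j := by
          interval_cases j <;> first | rfl | omega
        exact_mod_cast h9
      have hj0 : (0 : ℝ) < j := by exact_mod_cast hj1
      simp only [Complex.mul_re, Complex.mul_im, Complex.ofReal_re, Complex.ofReal_im,
        Complex.I_re, Complex.I_im]
      rw [h7]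
      generalize (3465 / j : ℕ) = t
      push_cast
      field_simp
      ring
    | false =>
      have h6 : ¬ j % 2 = 1 := by
        intro h; have := ho.2 h; simp at this
      rw [if_neg h6]
      simp

/-- the check of a leaf -/
def leafOK (lam : ℤ) (bs : List Box) (q q1 q2 : List (ℤ × ℤ)) : Bool :=
  match addL (toTrig q1) (mulSin (toTrig q2)), toTrig q with
  | m0 :: ms, r0 :: rs =>
    let B := sumB true 1 rs
    let κ : ℤ := if 0 ≤ B then 3183098 else 3183100
    (ms.length == bs.length) && (rs.length == bs.length) && decide (bs.length ≤ 11) &&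
    decide (40000 * (2 * 34650000000000 * m0.1 +
      2 * (100 * (1000 - lam) + 1) * 346500000 * r0.1 - 4 * lam * κ * B) +
      34650000000000 * sumH true bs ms rs < 0)
  | _, _ => false

/-- the properties of the Fourier coefficients which are used: `y_j` is the mean of `z ^ j` over a
probability measure on the upper half of the unit circle, and the means of the squares of
polynomials in `z w` over pairs of points are large -/
structure Adm (Λ : ℝ) (J : ℕ) (y : ℕ → ℂ) : Prop where
  zero : y 0 = 1
  pos : ∀ q : List (ℤ × ℤ), 0 ≤ lin (toTrig q) y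
  sin : ∀ q : List (ℤ × ℤ), 0 ≤ lin (mulSin (toTrig q)) y
  sq : ∀ q : List (ℤ × ℤ), q.length ≤ J + 1 →
    Λ * lin (toTrig q) aseq ≤ lin (toTrig q) (fun n => y n ^ 2) +
      1 / 100000 * lin (toTrig q) (fun n => if n = 0 then 1 else 0)

lemma lin_head (c : ℤ × ℤ) (cs : List (ℤ × ℤ)) (y : ℕ → ℂ) (h : y 0 = 1) :
    lin (c :: cs) y = c.1 + lin cs (fun n => y (n + 1)) := by
  simp [lin, h]

lemma leaf_spec {lam : ℤ} (hlam0 : 0 ≤ lam) {J : ℕ} {y : ℕ → ℂ} (hy : Adm ((lam : ℝ) / 1000) J y)
    {bs : List Box} (hbs : bs.length = J) (hin : InB true bs (fun n => y (n + 1)))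
    {q q1 q2 : List (ℤ × ℤ)} (h : leafOK lam bs q q1 q2 = true) : False := by
  unfold leafOK at h
  generalize hm : addL (toTrig q1) (mulSin (toTrig q2)) = m at h
  generalize hr : toTrig q = r at h
  cases m with
  | nil => simp at h
  | cons m0 ms =>
    cases r with
    | nil => simp at h
    | cons r0 rs =>
      simp only [Bool.and_eq_true, beq_iff_eq, decide_eq_true_eq] at h
      obtain ⟨⟨⟨h2, h3⟩, h4⟩, h5⟩ := h
      have hql : q.length ≤ J + 1 := by
        rw [← toTrig_length q, hr, List.length_cons, h3, hbs]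
      have g1 := hy.pos q1
      have g2 := hy.sin q2
      have g3 := hy.sq q hql
      have g4 : 0 ≤ lin (m0 :: ms) y := by
        rw [← hm, lin_addL]; linarith
      rw [lin_head _ _ _ hy.zero] at g4
      rw [hr, lin_head _ _ _ (by simp [aseq]), lin_head _ _ _ (by simp [hy.zero]),
        lin_head _ _ _ (by simp)] at g3
      have g5 : lin rs (fun n => if n + 1 = 0 then (1 : ℂ) else 0) = 0 := by
        have : (fun n : ℕ => if n + 1 = 0 then (1 : ℂ) else 0) = fun _ => 0 := by
          funext n; simp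
        rw [this, lin_zero_fun]
      rw [g5] at g3
      have g6 := sumH_spec true bs ms rs (fun n => y (n + 1)) h2 h3 hin
      have g7 := sumB_spec rs true 1 le_rfl (by omega) (by simp)
      set B := sumB true 1 rs with hB
      set H := sumH true bs ms rs with hH
      have hpi := Real.pi_pos
      have p1 := Real.pi_gt_d6
      have p2 := Real.pi_lt_d6
      -- the number `κ`
      have g8 : (((if 0 ≤ B then 3183098 else 3183100 : ℤ) : ℤ) : ℝ) * B ≤
          10000000 / Real.pi * B := by
        split_ifs with hB0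
        · have hBR : (0 : ℝ) ≤ B := by exact_mod_cast hB0
          apply mul_le_mul_of_nonneg_right _ hBR
          rw [le_div_iff₀ hpi]
          push_cast
          nlinarith
        · have hBR : (B : ℝ) ≤ 0 := by exact_mod_cast (by omega : B ≤ 0)
          apply mul_le_mul_of_nonpos_right _ hBR
          rw [div_le_iff₀ hpi]
          push_cast
          nlinarith
      set κ : ℤ := if 0 ≤ B then 3183098 else 3183100 with hκ
      have h5R : (40000 : ℝ) * (2 * 34650000000000 * m0.1 +
          2 * (100 * (1000 - lam) + 1) * 346500000 * r0.1 - 4 * lam * κ * B) +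
          34650000000000 * H < 0 := by exact_mod_cast h5
      have hlamR : (0 : ℝ) ≤ lam := by exact_mod_cast hlam0
      have g9 : (lam : ℝ) * (κ * B) ≤ lam * (10000000 / Real.pi * B) :=
        mul_le_mul_of_nonneg_left g8 hlamR
      have g10 : 10000000 / Real.pi * (B : ℝ) = 5000000 * (3465 * lin rs (fun n => aseq (n + 1))) := by
        rw [g7]; ring
      rw [g10] at g9
      set L1 := lin ms (fun n => y (n + 1))
      set L2 := lin rs (fun n => y (n + 1) ^ 2)
      set L3 := lin rs (fun n => aseq (n + 1))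
      have e3 : (0 : ℝ) ≤ 34650000000000 * 40000 * 2 * (m0.1 + L1) := by positivity
      have e4 : (34650000000000 * 40000 * 2 : ℝ) * ((lam : ℝ) / 1000 * (r0.1 + L3)) ≤
          34650000000000 * 40000 * 2 * (r0.1 + L2 + 1 / 100000 * (r0.1 + 0)) :=
        mul_le_mul_of_nonneg_left g3 (by norm_num)
      nlinarith

/-- certificates; the numbers in a leaf encode three lists of pairs of integers -/
inductive Tr
  | lf (q q1 q2 : ℕ) : Tr
  | nd (j : ℕ) (e : Bool) (m : ℕ) (l r : Tr) : Tr

/-- the `k` pairs of integers which are encoded in `n` -/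
def dec : ℕ → ℕ → List (ℤ × ℤ)
  | 0, _ => []
  | k + 1, n => (((n % 1073741824 : ℕ) : ℤ) - 536870912,
      (((n / 1073741824) % 1073741824 : ℕ) : ℤ) - 536870912) ::
      dec k (n / 1152921504606846976)

/-- apply `f` to one element of a list -/
def upd (f : Box → Box) : ℕ → List Box → List Box
  | _, [] => []
  | 0, b :: bs => f b :: bs
  | j + 1, b :: bs => b :: upd f j bs

/-- the left half of a box -/
def cutL (e : Bool) (m : ℤ) (b : Box) : Box :=
  if e then (b.1, b.2.1, b.2.2.1, m) else (b.1, m, b.2.2.1, b.2.2.2)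

/-- the right half of a box -/
def cutR (e : Bool) (m : ℤ) (b : Box) : Box :=
  if e then (b.1, b.2.1, m, b.2.2.2) else (m, b.2.1, b.2.2.1, b.2.2.2)

/-- the check of a certificate -/
def check (lam : ℤ) (J : ℕ) : List Box → Tr → Bool
  | bs, .lf q q1 q2 => leafOK lam bs (dec (J + 1) q) (dec (J + 1) q1) (dec J q2)
  | bs, .nd j e m l r =>
    check lam J (upd (cutL e ((m : ℤ) - 1000)) j bs) l &&
      check lam J (upd (cutR e ((m : ℤ) - 1000)) j bs) r

lemma check_nd {lam : ℤ} {J : ℕ} {bs bl br : List Box} {j : ℕ} {e : Bool} {m : ℕ} {l r : Tr}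
    (hl : upd (cutL e ((m : ℤ) - 1000)) j bs = bl) (hr : upd (cutR e ((m : ℤ) - 1000)) j bs = br)
    (h1 : check lam J bl l = true) (h2 : check lam J br r = true) :
    check lam J bs (.nd j e m l r) = true := by
  rw [check, hl, hr, h1, h2]
  rfl

lemma upd_length (f : Box → Box) (j : ℕ) (bs : List Box) : (upd f j bs).length = bs.length := by
  induction bs generalizing j with
  | nil => cases j <;> rfl
  | cons b bs ih => cases j with
    | zero => rfl
    | succ j => simp [upd, ih]

/-- coordinate `e` of the `j`-th number -/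
noncomputable def cd (o : Bool) (j : ℕ) (e : Bool) (y : ℕ → ℂ) : ℝ :=
  if e then (crd (if j % 2 = 0 then o else !o) (y j)).2
  else (crd (if j % 2 = 0 then o else !o) (y j)).1

lemma cd_succ (o : Bool) (j : ℕ) (e : Bool) (y : ℕ → ℂ) :
    cd o (j + 1) e y = cd (!o) j e (fun n => y (n + 1)) := by
  unfold cd
  have : (if (j + 1) % 2 = 0 then o else !o) = (if j % 2 = 0 then !o else !!o) := by
    rcases Nat.mod_two_eq_zero_or_one j with h | h
    · have h' : (j + 1) % 2 = 1 := by omega
      simp [h, h']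
    · have h' : (j + 1) % 2 = 0 := by omega
      simp [h, h']
  rw [this]

lemma InB_cutL {o : Bool} {bs : List Box} {y : ℕ → ℂ} (h : InB o bs y) (j : ℕ) (e : Bool) (m : ℤ)
    (hm : cd o j e y ≤ m) : InB o (upd (cutL e m) j bs) y := by
  induction bs generalizing o j y with
  | nil => cases j <;> exact trivial
  | cons b bs ih =>
    cases j with
    | zero =>
      obtain ⟨⟨h1, h2⟩, h3⟩ := h
      unfold cd at hm
      cases e with
      | true => exact ⟨⟨h1, h2.1, by simpa [cutL, cutR] using hm⟩, h3⟩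
      | false => exact ⟨⟨⟨h1.1, by simpa [cutL, cutR] using hm⟩, h2⟩, h3⟩
    | succ j =>
      rw [cd_succ] at hm
      exact ⟨h.1, ih h.2 j hm⟩

lemma InB_cutR {o : Bool} {bs : List Box} {y : ℕ → ℂ} (h : InB o bs y) (j : ℕ) (e : Bool) (m : ℤ)
    (hm : (m : ℝ) ≤ cd o j e y) : InB o (upd (cutR e m) j bs) y := by
  induction bs generalizing o j y with
  | nil => cases j <;> exact trivial
  | cons b bs ih =>
    cases j with
    | zero =>
      obtain ⟨⟨h1, h2⟩, h3⟩ := h
      unfold cd at hm
      cases e with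
      | true => exact ⟨⟨h1, by simpa [cutL, cutR] using hm, h2.2⟩, h3⟩
      | false => exact ⟨⟨⟨by simpa [cutL, cutR] using hm, h1.2⟩, h2⟩, h3⟩
    | succ j =>
      rw [cd_succ] at hm
      exact ⟨h.1, ih h.2 j hm⟩

/-- a correct certificate shows that there are no admissible Fourier coefficients in the box -/
theorem check_spec {lam : ℤ} (hlam0 : 0 ≤ lam) {J : ℕ} {y : ℕ → ℂ}
    (hy : Adm ((lam : ℝ) / 1000) J y) (t : Tr) : ∀ bs : List Box, bs.length = J →
    InB true bs (fun n => y (n + 1)) → check lam J bs t = true → False := by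
  induction t with
  | lf q q1 q2 =>
    intro bs hbs hin h
    exact leaf_spec hlam0 hy hbs hin h
  | nd j e m l r ihl ihr =>
    intro bs hbs hin h
    rw [check, Bool.and_eq_true] at h
    rcases le_total (cd true j e (fun n => y (n + 1))) (((m : ℤ) - 1000 : ℤ) : ℝ) with h1 | h1
    · exact ihl _ (by rw [upd_length, hbs]) (InB_cutL hin j e _ h1) h.1
    · exact ihr _ (by rw [upd_length, hbs]) (InB_cutR hin j e _ h1) h.2

end Pool.Agent.L7h21.Sq
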