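import Pool.Agent.L7h21.Sq.Check

/-!
# Estimates for coefficient lists
-/

set_option autoImplicit false

open Finset Filter Topology

namespace Pool.Agent.L7h21.Sq

/-- the sum of the absolute values of the coefficients -/
noncomputable def S1 : List (ℤ × ℤ) → ℝ
  | [] => 0
  | a :: as => (|(a.1 : ℝ)| + |(a.2 : ℝ)|) + S1 as

lemma S1_cons (a : ℤ × ℤ) (as : List (ℤ × ℤ)) :
    S1 (a :: as) = (|(a.1 : ℝ)| + |(a.2 : ℝ)|) + S1 as := rfl

lemma S1_nonneg (q : List (ℤ × ℤ)) : 0 ≤ S1 q := by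
  induction q with
  | nil => exact le_rfl
  | cons a as ih => unfold S1; positivity

lemma norm_mk_le (a c : ℝ) : ‖(⟨a, c⟩ : ℂ)‖ ≤ |a| + |c| := by
  have := Complex.norm_le_abs_re_add_abs_im (⟨a, c⟩ : ℂ)
  simpa using this

lemma norm_evalC_le (q : List (ℤ × ℤ)) {z : ℂ} (hz : ‖z‖ ≤ 1) : ‖evalC q z‖ ≤ S1 q := by
  induction q with
  | nil => simp [evalC, S1]
  | cons a as ih =>
    unfold evalC S1
    refine (norm_add_le _ _).trans ?_
    refine add_le_add (norm_mk_le _ _) ?_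
    rw [norm_mul]
    have := norm_nonneg (evalC as z)
    nlinarith [norm_nonneg z]

lemma norm_evalC_sub (q : List (ℤ × ℤ)) {z w : ℂ} (hz : ‖z‖ ≤ 1) (hw : ‖w‖ ≤ 1) :
    ‖evalC q z - evalC q w‖ ≤ q.length * S1 q * ‖z - w‖ := by
  induction q with
  | nil => simp [evalC, S1]
  | cons a as ih =>
    have e : evalC (a :: as) z - evalC (a :: as) w =
        z * (evalC as z - evalC as w) + (z - w) * evalC as w := by
      simp only [evalC]; ring
    rw [e]
    refine (norm_add_le _ _).trans ?_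
    rw [norm_mul, norm_mul]
    have h1 := norm_evalC_le as hw
    have h2 : S1 as ≤ S1 (a :: as) := by
      have : 0 ≤ |(a.1 : ℝ)| + |(a.2 : ℝ)| := by positivity
      rw [S1_cons]
      linarith
    have h3 := S1_nonneg as
    have h4 := norm_nonneg (z - w)
    have h5 : ‖z‖ * ‖evalC as z - evalC as w‖ ≤ 1 * (as.length * S1 as * ‖z - w‖) :=
      mul_le_mul hz ih (norm_nonneg _) (by norm_num)
    have h6 : ‖z - w‖ * ‖evalC as w‖ ≤ ‖z - w‖ * S1 (a :: as) :=
      mul_le_mul_of_nonneg_left (h1.trans h2) h4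
    have h7 : (as.length : ℝ) * S1 as * ‖z - w‖ ≤ as.length * S1 (a :: as) * ‖z - w‖ := by
      apply mul_le_mul_of_nonneg_right _ h4
      exact mul_le_mul_of_nonneg_left h2 (Nat.cast_nonneg _)
    rw [List.length_cons]
    push_cast
    nlinarith

lemma normSq_evalC_le (q : List (ℤ × ℤ)) {z : ℂ} (hz : ‖z‖ ≤ 1) :
    Complex.normSq (evalC q z) ≤ S1 q ^ 2 := by
  rw [Complex.normSq_eq_norm_sq]
  have h1 := norm_evalC_le q hz
  have h2 := norm_nonneg (evalC q z)
  nlinarith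

lemma normSq_evalC_sub (q : List (ℤ × ℤ)) {z w : ℂ} (hz : ‖z‖ ≤ 1) (hw : ‖w‖ ≤ 1) :
    |Complex.normSq (evalC q z) - Complex.normSq (evalC q w)| ≤
      2 * q.length * S1 q ^ 2 * ‖z - w‖ := by
  rw [Complex.normSq_eq_norm_sq, Complex.normSq_eq_norm_sq]
  have h1 := norm_evalC_le q hz
  have h2 := norm_evalC_le q hw
  have h3 := norm_nonneg (evalC q z)
  have h4 := norm_nonneg (evalC q w)
  have h5 := norm_evalC_sub q hz hw
  have h6 := abs_norm_sub_norm_le (evalC q z) (evalC q w)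
  have e : ‖evalC q z‖ ^ 2 - ‖evalC q w‖ ^ 2 =
      (‖evalC q z‖ - ‖evalC q w‖) * (‖evalC q z‖ + ‖evalC q w‖) := by ring
  rw [e, abs_mul, abs_of_nonneg (by positivity : 0 ≤ ‖evalC q z‖ + ‖evalC q w‖)]
  have h7 : |‖evalC q z‖ - ‖evalC q w‖| * (‖evalC q z‖ + ‖evalC q w‖) ≤
      (q.length * S1 q * ‖z - w‖) * (S1 q + S1 q) :=
    mul_le_mul (h6.trans h5) (by linarith) (by positivity)
      (by have := S1_nonneg q; positivity)
  refine h7.trans (le_of_eq ?_)
  ring

lemma abs_lin_le (c : List (ℤ × ℤ)) (y : ℕ → ℂ) (M : ℝ) (h : ∀ j < c.length, ‖y j‖ ≤ M) :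
    |lin c y| ≤ S1 c * M := by
  induction c generalizing y with
  | nil => simp [lin, S1]
  | cons a as ih =>
    unfold lin S1
    have h1 := ih (fun n => y (n + 1)) (fun j hj => h (j + 1) (by simpa using hj))
    have h2 := h 0 (by simp)
    have h3 := (Complex.abs_re_le_norm (y 0)).trans h2
    have h4 := (Complex.abs_im_le_norm (y 0)).trans h2
    have h5 : |(a.1 : ℝ) * (y 0).re| ≤ |(a.1 : ℝ)| * M := by
      rw [abs_mul]; exact mul_le_mul_of_nonneg_left h3 (abs_nonneg _)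
    have h6 : |(a.2 : ℝ) * (y 0).im| ≤ |(a.2 : ℝ)| * M := by
      rw [abs_mul]; exact mul_le_mul_of_nonneg_left h4 (abs_nonneg _)
    have h7 := abs_add_le ((a.1 : ℝ) * (y 0).re + a.2 * (y 0).im) (lin as fun n => y (n + 1))
    have h8 := abs_add_le ((a.1 : ℝ) * (y 0).re) (a.2 * (y 0).im)
    linarith

lemma S1_addL (a b : List (ℤ × ℤ)) : S1 (addL a b) ≤ S1 a + S1 b := by
  induction a generalizing b with
  | nil => simp [addL, S1]
  | cons a as ih =>
    cases b with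
    | nil => simp [addL, S1]
    | cons b bs =>
      simp only [addL, S1]
      push_cast
      have h1 := abs_add_le (a.1 : ℝ) b.1
      have h2 := abs_add_le (a.2 : ℝ) b.2
      have h3 := ih bs
      linarith

lemma S1_cross (a : ℤ × ℤ) (q : List (ℤ × ℤ)) :
    S1 (cross a q) ≤ 2 * (|(a.1 : ℝ)| + |(a.2 : ℝ)|) * S1 q := by
  induction q with
  | nil => simp [cross, S1]
  | cons b bs ih =>
    simp only [cross, S1]
    push_cast
    have h1 : |2 * ((a.1 : ℝ) * b.1 + a.2 * b.2)| ≤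
        2 * (|(a.1 : ℝ)| * |(b.1 : ℝ)| + |(a.2 : ℝ)| * |(b.2 : ℝ)|) := by
      rw [abs_mul, abs_two]
      have := abs_add_le ((a.1 : ℝ) * b.1) (a.2 * b.2)
      rw [abs_mul, abs_mul] at this
      linarith
    have h2 : |2 * ((a.2 : ℝ) * b.1 - a.1 * b.2)| ≤
        2 * (|(a.2 : ℝ)| * |(b.1 : ℝ)| + |(a.1 : ℝ)| * |(b.2 : ℝ)|) := by
      rw [abs_mul, abs_two]
      have := abs_sub ((a.2 : ℝ) * b.1) (a.1 * b.2)
      rw [abs_mul, abs_mul] at this
      linarith
    nlinarith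

lemma S1_toTrig (q : List (ℤ × ℤ)) : S1 (toTrig q) ≤ S1 q ^ 2 := by
  induction q with
  | nil => simp [toTrig, S1]
  | cons a as ih =>
    simp only [toTrig]
    refine (S1_addL _ _).trans ?_
    have h1 := S1_cross a as
    simp only [S1]
    have h6 := S1_nonneg as
    have h2 : |((a.1 * a.1 + a.2 * a.2 : ℤ) : ℝ)| + |((0 : ℤ) : ℝ)| ≤
        (|(a.1 : ℝ)| + |(a.2 : ℝ)|) ^ 2 := by
      push_cast
      rw [abs_zero, add_zero, abs_of_nonneg (add_nonneg (mul_self_nonneg (a.1 : ℝ))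
        (mul_self_nonneg (a.2 : ℝ)))]
      have h3 := abs_mul_abs_self (a.1 : ℝ)
      have h4 := abs_mul_abs_self (a.2 : ℝ)
      have h5 : 0 ≤ |(a.1 : ℝ)| * |(a.2 : ℝ)| := by positivity
      nlinarith
    nlinarith

/-- the first coefficient -/
lemma lin_toTrig_delta (a : ℤ × ℤ) (as : List (ℤ × ℤ)) :
    lin (toTrig (a :: as)) (fun n => if n = 0 then 1 else 0) =
      (a.1 : ℝ) ^ 2 + a.2 ^ 2 + lin (toTrig as) (fun n => if n = 0 then 1 else 0) := by
  simp only [toTrig, lin_addL, lin]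
  have h : (fun n : ℕ => if n + 1 = 0 then (1 : ℂ) else 0) = fun _ => 0 := by
    funext n; simp
  rw [h, lin_zero_fun]
  push_cast
  simp
  ring

lemma S1_sq_le (q : List (ℤ × ℤ)) :
    0 ≤ lin (toTrig q) (fun n => if n = 0 then 1 else 0) ∧
    S1 q ^ 2 ≤ 2 * q.length * lin (toTrig q) (fun n => if n = 0 then 1 else 0) := by
  induction q with
  | nil => simp [toTrig, lin, S1]
  | cons a as ih =>
    obtain ⟨ih0, ih1⟩ := ih
    rw [lin_toTrig_delta]
    set N := lin (toTrig as) (fun n => if n = 0 then 1 else 0)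
    refine ⟨by positivity, ?_⟩
    simp only [S1, List.length_cons]
    push_cast
    have e1 := sq_abs (a.1 : ℝ)
    have e2 := sq_abs (a.2 : ℝ)
    rw [← e1, ← e2]
    set u := |(a.1 : ℝ)|
    set v := |(a.2 : ℝ)|
    have hu : 0 ≤ u := abs_nonneg _
    have hv : 0 ≤ v := abs_nonneg _
    have hS := S1_nonneg as
    set S := S1 as
    set l : ℝ := (as.length : ℝ) with hl
    have hl0 : 0 ≤ l := Nat.cast_nonneg _
    -- 2 (u + v) S ≤ 2 l (u² + v²) + 2 N
    have h1 : 2 * (u + v) * S ≤ 2 * l * (u ^ 2 + v ^ 2) + 2 * N := by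
      have h2 : (2 * (u + v) * S) ^ 2 ≤ (2 * l * (u ^ 2 + v ^ 2) + 2 * N) ^ 2 := by
        have h3 : (u + v) ^ 2 ≤ 2 * (u ^ 2 + v ^ 2) := by nlinarith [sq_nonneg (u - v)]
        have h4 : (u + v) ^ 2 * S ^ 2 ≤ 2 * (u ^ 2 + v ^ 2) * (2 * l * N) :=
          mul_le_mul h3 ih1 (by positivity) (by positivity)
        have h5 := sq_nonneg (2 * l * (u ^ 2 + v ^ 2) - 2 * N)
        nlinarith
      exact le_of_sq_le_sq h2 (by positivity) 
    nlinarith [sq_nonneg (u - v)]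

end Pool.Agent.L7h21.Sq
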