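import Pool.Agent.L7h21.Sq.Check

/-!
# The boxes of the root
-/

set_option autoImplicit false

namespace Pool.Agent.L7h21.Sq

lemma lin_cross_one (j : ℕ) (w : ℤ × ℤ) (y : ℕ → ℂ) :
    lin (cross (1, 0) (List.replicate j (0, 0) ++ [w])) y =
      2 * (w.1 * (y j).re - w.2 * (y j).im) := by
  induction j generalizing y with
  | zero =>
    simp only [List.replicate, List.nil_append, cross, lin]
    push_cast
    ring
  | succ j ih =>
    simp only [List.replicate_succ, List.cons_append, cross, lin]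
    rw [ih]
    push_cast
    ring

lemma lin_cross_zero (q : List (ℤ × ℤ)) (y : ℕ → ℂ) : lin (cross (0, 0) q) y = 0 := by
  induction q generalizing y with
  | nil => simp [cross, lin]
  | cons b bs ih =>
    simp only [cross, lin]
    rw [ih]
    push_cast
    ring

lemma lin_toTrig_zeros (j : ℕ) (w : ℤ × ℤ) (y : ℕ → ℂ) (hy : y 0 = 1) :
    lin (toTrig (List.replicate j (0, 0) ++ [w])) y = (w.1 : ℝ) ^ 2 + w.2 ^ 2 := by
  induction j with
  | zero =>
    simp only [List.replicate, List.nil_append, toTrig, lin_addL, cross, lin, hy]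
    push_cast
    simp
    ring
  | succ j ih =>
    simp only [List.replicate_succ, List.cons_append, toTrig, lin_addL, lin]
    rw [ih, lin_cross_zero]
    simp

lemma lin_toTrig_two (j : ℕ) (w : ℤ × ℤ) (y : ℕ → ℂ) (hy : y 0 = 1) :
    lin (toTrig ((1, 0) :: (List.replicate j (0, 0) ++ [w]))) y =
      1 + (w.1 : ℝ) ^ 2 + w.2 ^ 2 + 2 * (w.1 * (y (j + 1)).re - w.2 * (y (j + 1)).im) := by
  simp only [toTrig, lin_addL]
  rw [lin_toTrig_zeros j w y hy]
  simp only [lin, hy]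
  rw [lin_cross_one]
  push_cast
  simp
  ring

section
variable {Λ : ℝ} {J : ℕ} {y : ℕ → ℂ} (hy : Adm Λ J y)
include hy

lemma Adm.single {j : ℕ} (hj : j + 1 ≤ J) (w : ℤ × ℤ) :
    Λ * (1 + (w.1 : ℝ) ^ 2 + w.2 ^ 2 +
      2 * (w.1 * (aseq (j + 1)).re - w.2 * (aseq (j + 1)).im)) ≤
    (1 + (w.1 : ℝ) ^ 2 + w.2 ^ 2 +
      2 * (w.1 * (y (j + 1) ^ 2).re - w.2 * (y (j + 1) ^ 2).im)) +
      1 / 100000 * (1 + (w.1 : ℝ) ^ 2 + w.2 ^ 2) := by
  have h := hy.sq ((1, 0) :: (List.replicate j (0, 0) ++ [w])) (by simp; omega)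
  rw [lin_toTrig_two _ _ _ (by simp [aseq]), lin_toTrig_two _ _ _ (by simp [hy.zero]),
    lin_toTrig_two _ _ _ (by simp)] at h
  simpa using h

/-- the four inequalities for one index -/
lemma Adm.four {j : ℕ} (hj1 : 1 ≤ j) (hj : j ≤ J) :
    |(y j ^ 2).re - Λ * (aseq j).re| ≤ 1 - Λ + 1 / 100000 ∧
    |(y j ^ 2).im - Λ * (aseq j).im| ≤ 1 - Λ + 1 / 100000 := by
  obtain ⟨k, rfl⟩ : ∃ k, j = k + 1 := ⟨j - 1, by omega⟩
  have h1 := hy.single hj (1, 0)
  have h2 := hy.single hj (-1, 0)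
  have h3 := hy.single hj (0, 1)
  have h4 := hy.single hj (0, -1)
  push_cast at h1 h2 h3 h4
  constructor
  · rw [abs_le]; constructor <;> linarith
  · rw [abs_le]; constructor <;> linarith

lemma Adm.im_nonneg : 0 ≤ (y 1).im := by
  have h := hy.sin [(1, 0)]
  simp [mulSin, toTrig, cross, addL, rotL, negL, lin] at h
  linarith

end

/-- a bound for one coordinate -/
lemma root_bound {p q A δ P : ℝ} (hP : 0 < P) (h1 : |p * q| ≤ δ) (h2 : p ^ 2 - q ^ 2 ≤ 2 * A)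
    (hc : 2 * A * P ^ 2 + δ ^ 2 ≤ P ^ 4) : |p| ≤ P := by
  by_contra hcon
  push Not at hcon
  have h3 : P ^ 2 < p ^ 2 := by
    rw [← sq_abs p]
    nlinarith
  have h4 : (p * q) ^ 2 ≤ δ ^ 2 := by
    rw [← sq_abs (p * q)]
    have := abs_nonneg (p * q)
    nlinarith
  have hP2 : 0 < P ^ 2 := by positivity
  have h5 : 2 * A ≤ P ^ 2 := by
    by_contra h
    push Not at h
    nlinarith [sq_nonneg δ]
  have h6 : (p ^ 2) * (p ^ 2 - q ^ 2) ≤ p ^ 2 * (2 * A) :=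
    mul_le_mul_of_nonneg_left h2 (sq_nonneg p)
  have h7 : 0 < (p ^ 2 - P ^ 2) * (p ^ 2 + P ^ 2 - 2 * A) := by
    apply mul_pos (by linarith) (by linarith)
  nlinarith

section
variable {Λ : ℝ} {J : ℕ} {y : ℕ → ℂ} (hy : Adm Λ J y)
include hy

/-- the box of an even index -/
lemma Adm.even_box {j : ℕ} (hj1 : 1 ≤ j) (hj : j ≤ J) (he : j % 2 = 0) (U : ℤ) (hU : 0 < U)
    (hc : (1 - Λ + 1 / 100000) * ((U : ℝ) / 200) ^ 2 + ((1 - Λ + 1 / 100000) / 2) ^ 2 ≤
      ((U : ℝ) / 200) ^ 4) :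
    ((((-U : ℤ) : ℝ) ≤ (crd false (y j)).1 ∧ (crd false (y j)).1 ≤ U) ∧
      (((-U : ℤ) : ℝ) ≤ (crd false (y j)).2 ∧ (crd false (y j)).2 ≤ U)) := by
  obtain ⟨h1, h2⟩ := hy.four hj1 hj
  have ha : aseq j = 0 := by
    unfold aseq
    rw [if_neg (by omega), if_neg (by omega)]
  rw [ha] at h1 h2
  simp only [Complex.zero_re, Complex.zero_im, mul_zero, sub_zero] at h1 h2
  have e1 : (y j ^ 2).re = (y j).re * (y j).re - (y j).im * (y j).im := by
    rw [pow_two, Complex.mul_re]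
  have e2 : (y j ^ 2).im = (y j).re * (y j).im + (y j).im * (y j).re := by
    rw [pow_two, Complex.mul_im]
  rw [e1] at h1
  rw [e2] at h2
  set u := (y j).re
  set v := (y j).im
  set δ := 1 - Λ + 1 / 100000
  have hUR : (0 : ℝ) < U := by exact_mod_cast hU
  have h3 : |u * v| ≤ δ / 2 := by
    rw [abs_le] at h2 ⊢
    constructor <;> linarith
  have h3' : |v * u| ≤ δ / 2 := by rw [mul_comm]; exact h3
  rw [abs_le] at h1
  have g1 := root_bound (A := δ / 2) (P := (U : ℝ) / 200) (by positivity) h3 (by nlinarith)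
    (by linarith)
  have g2 := root_bound (A := δ / 2) (P := (U : ℝ) / 200) (by positivity) h3' (by nlinarith)
    (by linarith)
  rw [abs_le] at g1 g2
  simp only [crd]
  rw [if_neg (by decide)]
  push_cast
  refine ⟨⟨?_, ?_⟩, ⟨?_, ?_⟩⟩ <;> linarith [g1.1, g1.2, g2.1, g2.2]

/-- the box of an odd index -/
lemma Adm.odd_box {j : ℕ} (hj1 : 1 ≤ j) (hj : j ≤ J) (ho : j % 2 = 1) (P Q : ℤ) (hP : 0 < P)
    (hQ : 0 < Q)
    (hcP : 2 * (Λ * (2 / (Real.pi * j)) + (1 - Λ + 1 / 100000)) * ((P : ℝ) / 200) ^ 2 +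
      (1 - Λ + 1 / 100000) ^ 2 ≤ ((P : ℝ) / 200) ^ 4)
    (hcQ : 2 * ((1 - Λ + 1 / 100000) - Λ * (2 / (Real.pi * j))) * ((Q : ℝ) / 200) ^ 2 +
      (1 - Λ + 1 / 100000) ^ 2 ≤ ((Q : ℝ) / 200) ^ 4) :
    ((((-P : ℤ) : ℝ) ≤ (crd true (y j)).1 ∧ (crd true (y j)).1 ≤ P) ∧
      (((-Q : ℤ) : ℝ) ≤ (crd true (y j)).2 ∧ (crd true (y j)).2 ≤ Q)) ∧
    2 * (Λ * (2 / (Real.pi * j)) - (1 - Λ + 1 / 100000)) ≤
      ((y j).re + (y j).im) ^ 2 - ((y j).im - (y j).re) ^ 2 := by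
  obtain ⟨h1, h2⟩ := hy.four hj1 hj
  have ha : aseq j = ((2 / (Real.pi * j) : ℝ) : ℂ) * Complex.I := by
    unfold aseq
    rw [if_neg (by omega), if_pos ho]
  have ha1 : (aseq j).re = 0 := by
    rw [ha]
    simp only [Complex.mul_re, Complex.ofReal_re, Complex.ofReal_im, Complex.I_re, Complex.I_im]
    ring
  have ha2 : (aseq j).im = 2 / (Real.pi * j) := by
    rw [ha]
    simp only [Complex.mul_im, Complex.ofReal_re, Complex.ofReal_im, Complex.I_re, Complex.I_im]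
    ring
  rw [ha1] at h1
  rw [ha2] at h2
  have e1 : (y j ^ 2).re = (y j).re * (y j).re - (y j).im * (y j).im := by
    rw [pow_two, Complex.mul_re]
  have e2 : (y j ^ 2).im = (y j).re * (y j).im + (y j).im * (y j).re := by
    rw [pow_two, Complex.mul_im]
  rw [e1] at h1
  rw [e2] at h2
  set u := (y j).re
  set v := (y j).im
  set δ := 1 - Λ + 1 / 100000
  set α := Λ * (2 / (Real.pi * j))
  have hPR : (0 : ℝ) < P := by exact_mod_cast hP
  have hQR : (0 : ℝ) < Q := by exact_mod_cast hQ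
  rw [abs_le] at h1 h2
  have h3 : |(u + v) * (v - u)| ≤ δ := by
    rw [abs_le]
    constructor <;> nlinarith
  have h3' : |(v - u) * (u + v)| ≤ δ := by rw [mul_comm]; exact h3
  have g1 := root_bound (A := α + δ) (P := (P : ℝ) / 200) (by positivity) h3 (by nlinarith) hcP
  have g2 := root_bound (A := δ - α) (P := (Q : ℝ) / 200) (by positivity) h3' (by nlinarith) hcQ
  rw [abs_le] at g1 g2
  simp only [crd, if_true]
  push_cast
  refine ⟨⟨⟨?_, ?_⟩, ⟨?_, ?_⟩⟩, ?_⟩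
  · linarith [g1.1]
  · linarith [g1.2]
  · linarith [g2.1]
  · linarith [g2.2]
  · nlinarith [h2.1]

end

end Pool.Agent.L7h21.Sq
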