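import Pool.Agent.L7h21.Sq.Main
import Pool.Agent.L7h21.Sq.Root
import Pool.Agent.L7h21.Sq.C87

/-!
# Digit sums of quadratic irrationals
-/

set_option autoImplicit false

open Finset Filter

namespace Pool.Agent.L7h21.Sq

open Pool.Agent.H394R2.Ones

/-- there are no admissible coefficients -/
lemma no_adm {y : ℕ → ℂ} (hy : Adm (((870 : ℤ) : ℝ) / 1000) 9 y) : False := by
  have p1 := Real.pi_gt_d6
  have p2 := Real.pi_lt_d6
  have hpi := Real.pi_pos
  have hl : ∀ j : ℕ, 1 ≤ j → 636619 / 1000000 / (j : ℝ) ≤ 2 / (Real.pi * j) := by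
    intro j hj
    have hj0 : (0 : ℝ) < j := by exact_mod_cast hj
    rw [← div_div 2 Real.pi (j : ℝ)]
    apply div_le_div_of_nonneg_right _ hj0.le
    rw [le_div_iff₀ hpi]
    nlinarith
  have hu : ∀ j : ℕ, 1 ≤ j → 2 / (Real.pi * j) ≤ 636620 / 1000000 / (j : ℝ) := by
    intro j hj
    have hj0 : (0 : ℝ) < j := by exact_mod_cast hj
    rw [← div_div 2 Real.pi (j : ℝ)]
    apply div_le_div_of_nonneg_right _ hj0.le
    rw [div_le_iff₀ hpi]
    nlinarith
  have e : ∀ j : ℕ, 1 ≤ j → j ≤ 9 → j % 2 = 0 → _ := fun j h1 h2 h3 =>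
    hy.even_box h1 h2 h3 81 (by norm_num) (by push_cast; norm_num)
  have l1 := hl 1 le_rfl
  have u1 := hu 1 le_rfl
  have l3 := hl 3 (by norm_num)
  have u3 := hu 3 (by norm_num)
  have l5 := hl 5 (by norm_num)
  have u5 := hu 5 (by norm_num)
  have l7 := hl 7 (by norm_num)
  have u7 := hu 7 (by norm_num)
  have l9 := hl 9 (by norm_num)
  have u9 := hu 9 (by norm_num)
  push_cast at l1 u1 l3 u3 l5 u5 l7 u7 l9 u9
  have b1 := hy.odd_box (j := 1) (by norm_num) (by norm_num) (by norm_num) 236 29 (by norm_num)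
    (by norm_num) (by push_cast; norm_num at l1 u1 ⊢; linarith)
    (by push_cast; norm_num at l1 u1 ⊢; linarith)
  have b3 := hy.odd_box (j := 3) (by norm_num) (by norm_num) (by norm_num) 163 60 (by norm_num)
    (by norm_num) (by push_cast; norm_num at l3 u3 ⊢; linarith)
    (by push_cast; norm_num at l3 u3 ⊢; linarith)
  have b5 := hy.odd_box (j := 5) (by norm_num) (by norm_num) (by norm_num) 145 79 (by norm_num)
    (by norm_num) (by push_cast; norm_num at l5 u5 ⊢; linarith)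
    (by push_cast; norm_num at l5 u5 ⊢; linarith)
  have b7 := hy.odd_box (j := 7) (by norm_num) (by norm_num) (by norm_num) 136 89 (by norm_num)
    (by norm_num) (by push_cast; norm_num at l7 u7 ⊢; linarith)
    (by push_cast; norm_num at l7 u7 ⊢; linarith)
  have b9 := hy.odd_box (j := 9) (by norm_num) (by norm_num) (by norm_num) 132 94 (by norm_num)
    (by norm_num) (by push_cast; norm_num at l9 u9 ⊢; linarith)
    (by push_cast; norm_num at l9 u9 ⊢; linarith)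
  have him := hy.im_nonneg
  have h1 := b1.2
  push_cast at h1
  -- the lower bound for the first coordinate
  have hlow : (183 : ℝ) ≤ 200 * ((y 1).re + (y 1).im) := by
    set u := (y 1).re
    set v := (y 1).im
    have g1 : 4 * (u * v) = (u + v) ^ 2 - (v - u) ^ 2 := by ring
    have g2 : 0 < u * v := by
      norm_num at h1 l1
      nlinarith
    have g3 : 0 < v := by
      rcases him.lt_or_eq with h | h
      · exact h
      · rw [← h] at g2; simp at g2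
    have g4 : 0 < u := by
      by_contra hcon
      push Not at hcon
      nlinarith
    have g5 : (183 / 200 : ℝ) ^ 2 ≤ (u + v) ^ 2 := by
      norm_num at h1 l1 ⊢
      nlinarith [sq_nonneg (v - u)]
    have g6 : (183 / 200 : ℝ) ≤ u + v := by
      by_contra hcon
      push Not at hcon
      nlinarith
    linarith
  refine check_spec (by norm_num) hy C87.tree C87.root rfl ?_ C87.ok
  refine ⟨⟨⟨?_, b1.1.1.2⟩, b1.1.2⟩, e 2 (by norm_num) (by norm_num) (by norm_num), b3.1,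
    e 4 (by norm_num) (by norm_num) (by norm_num), b5.1,
    e 6 (by norm_num) (by norm_num) (by norm_num), b7.1,
    e 8 (by norm_num) (by norm_num) (by norm_num), b9.1, trivial⟩
  simp only [crd, if_true]
  push_cast
  exact hlow

/-- digit sums of quadratic irrationals in `(0, 1)` -/
theorem quad_main87 {b : ℕ} {y : ℝ} (hb : 2 ≤ b) (hy0 : 0 < y) (hy1 : y < 1)
    (hirr : Irrational y) {A B C : ℤ} (hA : 0 < A) (hq : (A : ℝ) * y ^ 2 + B * y + C = 0) :
    ∃ n0 : ℕ, ∀ n : ℕ, n0 ≤ n →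
      ((b : ℝ) - 1) * (Int.gcd b (2 * A) : ℕ) / A * n ≤ 87 / 100 * (K b y n : ℝ) ^ 2 := by
  obtain ⟨n0, hn0⟩ := adm hb hy0 hy1 hirr hA hq (((870 : ℤ) : ℝ) / 1000) (by norm_num)
    (by norm_num) 9
  refine ⟨n0, fun n hn => ?_⟩
  by_contra hcon
  push Not at hcon
  refine no_adm (hn0 n hn ?_)
  refine le_trans (le_of_eq (by norm_num)) (hcon.le.trans (le_of_eq ?_))
  ring

/-- digit sums of real quadratic irrationals -/
theorem quad_real87 {b : ℕ} (hb : 2 ≤ b) {A B C : ℤ} (hA : 0 < A) {ξ : ℝ} (hirr : Irrational ξ)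
    (hq : (A : ℝ) * ξ ^ 2 + B * ξ + C = 0) :
    ∃ n0 : ℕ, ∀ n : ℕ, n0 ≤ n →
      ((b : ℝ) - 1) * (Int.gcd b (2 * A) : ℕ) / A * n ≤
        87 / 100 * ((∑ k ∈ range n, ⌊ξ * (b : ℝ) ^ (k + 1)⌋ % (b : ℤ) : ℤ) : ℝ) ^ 2 := by
  set y : ℝ := Int.fract ξ with hy
  have hξ : ξ = ⌊ξ⌋ + y := (Int.floor_add_fract ξ).symm
  have hyirr : Irrational y := by
    have : y = ξ - (⌊ξ⌋ : ℤ) := rfl
    rw [this]
    exact hirr.sub_intCast _
  have hy0 : 0 < y := lt_of_le_of_ne (Int.fract_nonneg ξ) (Ne.symm hyirr.ne_zero)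
  have hy1 : y < 1 := Int.fract_lt_one ξ
  have hq' : (A : ℝ) * y ^ 2 + ((B + 2 * A * ⌊ξ⌋ : ℤ) : ℝ) * y +
      ((C + B * ⌊ξ⌋ + A * ⌊ξ⌋ ^ 2 : ℤ) : ℝ) = 0 := by
    have h1 : (A : ℝ) * (⌊ξ⌋ + y) ^ 2 + B * (⌊ξ⌋ + y) + C = 0 := by rw [← hξ]; exact hq
    push_cast
    linarith
  obtain ⟨n0, hn0⟩ := quad_main87 hb hy0 hy1 hyirr hA hq'
  refine ⟨n0, fun n hn => (hn0 n hn).trans (le_of_eq ?_)⟩
  have hdig : ∀ k : ℕ, ⌊ξ * (b : ℝ) ^ (k + 1)⌋ % (b : ℤ) = (x b y (k + 1) : ℤ) := by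
    intro k
    have h1 : ξ * (b : ℝ) ^ (k + 1) = ((⌊ξ⌋ * (b : ℤ) ^ (k + 1) : ℤ) : ℝ) +
        y * (b : ℝ) ^ (k + 1) := by
      nth_rewrite 1 [hξ]
      push_cast
      ring
    rw [h1, Int.floor_intCast_add]
    unfold x Pool.Agent.H394R2.Ones.B
    push_cast
    rw [Int.natCast_floor_eq_floor (by positivity)]
    rw [show ⌊ξ⌋ * (b : ℤ) ^ (k + 1) + ⌊y * (b : ℝ) ^ (k + 1)⌋ =
      ⌊y * (b : ℝ) ^ (k + 1)⌋ + (b : ℤ) * (⌊ξ⌋ * (b : ℤ) ^ k) by ring, Int.add_mul_emod_self_left]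
  simp only [hdig]
  have hK : (K b y n : ℝ) = ((∑ k ∈ range n, (x b y (k + 1) : ℤ) : ℤ) : ℝ) := by
    unfold K
    rw [sum_range_succ', x_zero hy0 hy1, add_zero]
    push_cast
    rfl
  rw [hK]

end Pool.Agent.L7h21.Sq
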