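import Pool.Agent.L7h21.Sq.Meas

/-!
# The digits of quadratic irrationals have admissible Fourier coefficients
-/

set_option autoImplicit false
set_option linter.unusedSectionVars false

open Finset Filter Topology
open Pool.Agent.H394R2.Ones Pool.Agent.H820R3.DG

namespace Pool.Agent.L7h21.Sq

section
variable {b : ℕ} {y : ℝ} (hb : 2 ≤ b) (hy0 : 0 < y) (hy1 : y < 1) (hirr : Irrational y)

include hb hy0 hy1 in
/-- summation by parts -/
lemma r_phi (φ : ℕ → ℝ) (N : ℕ) :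
    ∑ m ∈ range (N + 1), (r b y m : ℝ) * φ m =
      ∑ m ∈ range N, T b y m * (b * φ (m + 1) - φ m) + T b y 0 * φ 0 - T b y N * φ N := by
  induction N with
  | zero => simp [r_zero hy0 hy1]
  | succ N ih =>
    rw [sum_range_succ, ih, sum_range_succ _ N]
    have h : (r b y (N + 1) : ℝ) = b * T b y N - T b y (N + 1) := by
      have h1 := T_succ hb hy0 hy1 (b := b) N
      linarith
    rw [h]
    ring

include hb hy0 hy1 hirr in
lemma T_total (n : ℕ) : ∑ m ∈ range n, T b y m ≤ (K b y n : ℝ) ^ 2 + K b y n + 1 := by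
  have hbR : (2 : ℝ) ≤ b := by exact_mod_cast hb
  have h1 := R_eq hb hy0 hy1 (b := b) n
  have h2 : (K b y n : ℝ) ^ 2 = R b y n + Q b y n := by exact_mod_cast K_sq (b := b) (y := y) n
  have h3 : (0 : ℝ) ≤ Q b y n := Nat.cast_nonneg _
  have h4 := T_le hb hy0 hy1 n
  have h5 := (T_pos hb hy0 hy1 hirr 0).le
  have h6 : 0 ≤ ∑ m ∈ range n, T b y m := sum_nonneg fun m _ => (T_pos hb hy0 hy1 hirr m).le
  nlinarith

include hb hy0 hy1 hirr in
/-- the main inequality -/
lemma pairs_ge {τ D : ℝ} {n : ℕ} {d : ℕ → ℝ} (hd0 : ∀ m, 0 ≤ d m)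
    (hd : ∀ m, τ - d m ≤ T b y m) (hD : ∑ m ∈ range n, d m ≤ D) (hn : 0 < n)
    (q : List (ℤ × ℤ)) :
    ((b : ℝ) - 1) * τ * ∑ m ∈ range n, P q n m -
      S1 q ^ 2 * (2 * b * q.length * (Real.pi / n) * ((K b y n : ℝ) ^ 2 + K b y n + 1) +
        (K b y n + 1) + (b - 1) * D) ≤
    ∑ p ∈ range (n + 1) ×ˢ range (n + 1), (x b y p.1 : ℝ) * x b y p.2 * P q n (p.1 + p.2) := by
  have hbR : (2 : ℝ) ≤ b := by exact_mod_cast hb
  have hS : 0 ≤ S1 q ^ 2 := sq_nonneg _
  set δP : ℝ := 2 * q.length * S1 q ^ 2 * (Real.pi / n) with hδP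
  have hδP0 : 0 ≤ δP := by
    have := Real.pi_pos
    positivity
  -- the pairs with small sum
  have h1 : ∑ m ∈ range (n + 1), (r b y m : ℝ) * P q n m ≤
      ∑ p ∈ range (n + 1) ×ˢ range (n + 1), (x b y p.1 : ℝ) * x b y p.2 * P q n (p.1 + p.2) := by
    rw [pair_sum n (fun i j => (x b y i : ℝ) * x b y j * P q n (i + j))]
    have h2 : 0 ≤ ∑ p ∈ (range (n + 1) ×ˢ range (n + 1)).filter (fun p => ¬ p.1 + p.2 ≤ n),
        (x b y p.1 : ℝ) * x b y p.2 * P q n (p.1 + p.2) :=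
      sum_nonneg fun p _ => mul_nonneg (by positivity) (P_nonneg _ _ _)
    have h3 : ∑ m ∈ range (n + 1), (r b y m : ℝ) * P q n m =
        ∑ m ∈ range (n + 1), ∑ p ∈ antidiagonal m,
          (x b y p.1 : ℝ) * x b y p.2 * P q n (p.1 + p.2) := by
      refine sum_congr rfl fun m _ => ?_
      unfold r
      push_cast
      rw [sum_mul]
      refine sum_congr rfl fun p hp => ?_
      rw [HasAntidiagonal.mem_antidiagonal] at hp
      rw [hp]
    linarith
  refine le_trans ?_ h1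
  rw [r_phi hb hy0 hy1 (fun m => P q n m) n]
  -- termwise
  have h4 : ∀ m ∈ range n, ((b : ℝ) - 1) * τ * P q n m - (b - 1) * S1 q ^ 2 * d m -
      b * δP * T b y m ≤ T b y m * (b * P q n (m + 1) - P q n m) := by
    intro m _
    have hT := (T_pos hb hy0 hy1 hirr m).le
    have hP0 := P_nonneg q n m
    have hP1 := P_le q n m
    have hPs := (abs_le.1 (P_sub q hn m)).1
    have h5 := hd m
    have h6 := hd0 m
    have h7 : T b y m * ((b - 1) * P q n m - b * δP) ≤
        T b y m * (b * P q n (m + 1) - P q n m) := by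
      apply mul_le_mul_of_nonneg_left _ hT
      have : (b : ℝ) * (-δP) ≤ b * (P q n (m + 1) - P q n m) :=
        mul_le_mul_of_nonneg_left hPs (by linarith)
      linarith
    have h8 : (τ - d m) * ((b - 1) * P q n m) ≤ T b y m * ((b - 1) * P q n m) :=
      mul_le_mul_of_nonneg_right h5 (mul_nonneg (by linarith) hP0)
    have h9 : (b - 1 : ℝ) * d m * P q n m ≤ (b - 1) * d m * S1 q ^ 2 :=
      mul_le_mul_of_nonneg_left hP1 (mul_nonneg (by linarith) h6)
    linarith
  have h5 := sum_le_sum h4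
  rw [sum_sub_distrib, sum_sub_distrib, ← mul_sum, ← mul_sum, ← mul_sum] at h5
  have h6 : (b - 1 : ℝ) * S1 q ^ 2 * ∑ m ∈ range n, d m ≤ (b - 1) * S1 q ^ 2 * D :=
    mul_le_mul_of_nonneg_left hD (mul_nonneg (by linarith) hS)
  have h7 : (b : ℝ) * δP * ∑ m ∈ range n, T b y m ≤
      b * δP * ((K b y n : ℝ) ^ 2 + K b y n + 1) :=
    mul_le_mul_of_nonneg_left (T_total hb hy0 hy1 hirr n) (mul_nonneg (by linarith) hδP0)
  have h8 : 0 ≤ T b y 0 * P q n 0 := mul_nonneg (T_pos hb hy0 hy1 hirr 0).le (P_nonneg _ _ _)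
  have h9 : T b y n * P q n n ≤ (K b y n + 1) * S1 q ^ 2 :=
    mul_le_mul (T_le hb hy0 hy1 n) (P_le _ _ _) (P_nonneg _ _ _) (by positivity)
  have e1 : S1 q ^ 2 * (2 * b * q.length * (Real.pi / n) * ((K b y n : ℝ) ^ 2 + K b y n + 1) +
        (K b y n + 1) + (b - 1) * D) = b * δP * ((K b y n : ℝ) ^ 2 + K b y n + 1) +
        (K b y n + 1) * S1 q ^ 2 + (b - 1) * S1 q ^ 2 * D := by
    rw [hδP]; ring
  rw [e1]
  linarith

/-- the Fourier coefficients of the digits -/
noncomputable def Y (b : ℕ) (y : ℝ) (n : ℕ) (j : ℕ) : ℂ :=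
  ∑ i ∈ range (n + 1), (((x b y i : ℝ) / K b y n : ℝ) : ℂ) * Z n i ^ j

lemma w_sum {n : ℕ} (hK : 0 < K b y n) :
    ∑ i ∈ range (n + 1), (x b y i : ℝ) / K b y n = 1 := by
  have hKR : (0 : ℝ) < K b y n := by exact_mod_cast hK
  rw [← sum_div]
  rw [div_eq_one_iff_eq hKR.ne']
  unfold K
  push_cast
  rfl

lemma lin_Y (c : List (ℤ × ℤ)) (n : ℕ) :
    lin c (Y b y n) = ∑ i ∈ range (n + 1), (x b y i : ℝ) / K b y n * lin c (fun j => Z n i ^ j) :=
  lin_sum c (range (n + 1)) (fun i => (x b y i : ℝ) / K b y n) (fun i j => Z n i ^ j)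

lemma lin_Y_sq (q : List (ℤ × ℤ)) (n : ℕ) :
    lin (toTrig q) (fun j => Y b y n j ^ 2) =
      (∑ p ∈ range (n + 1) ×ˢ range (n + 1), (x b y p.1 : ℝ) * x b y p.2 * P q n (p.1 + p.2)) /
        (K b y n : ℝ) ^ 2 := by
  have h1 := lin_sum (toTrig q) (range (n + 1) ×ˢ range (n + 1))
    (fun p => (x b y p.1 : ℝ) / K b y n * (x b y p.2 / K b y n))
    (fun p j => Z n (p.1 + p.2) ^ j)
  have h2 : (fun j => ∑ p ∈ range (n + 1) ×ˢ range (n + 1),
      ((((x b y p.1 : ℝ) / K b y n * (x b y p.2 / K b y n) : ℝ)) : ℂ) * Z n (p.1 + p.2) ^ j) =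
      (fun j => Y b y n j ^ 2) := by
    funext j
    unfold Y
    rw [pow_two, sum_mul_sum, sum_product]
    refine sum_congr rfl fun i _ => sum_congr rfl fun k _ => ?_
    rw [← Z_mul, mul_pow]
    push_cast
    ring
  rw [h2] at h1
  rw [h1, sum_div]
  refine sum_congr rfl fun p _ => ?_
  rw [← P_eq]
  ring

include hb hy0 hy1 hirr in
/-- If the digit sum is small for a large `n` then its Fourier coefficients are admissible. -/
theorem adm {A B C : ℤ} (hA : 0 < A) (hq : (A : ℝ) * y ^ 2 + B * y + C = 0) (Λ : ℝ)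
    (hΛ0 : 0 < Λ) (hΛ1 : Λ ≤ 1) (J : ℕ) :
    ∃ n0 : ℕ, ∀ n : ℕ, n0 ≤ n →
      Λ * (K b y n : ℝ) ^ 2 ≤ ((b : ℝ) - 1) * ((Int.gcd b (2 * A) : ℕ) / A) * n →
      Adm Λ J (Y b y n) := by
  have hbR : (2 : ℝ) ≤ b := by exact_mod_cast hb
  have hAR : (1 : ℝ) ≤ A := by exact_mod_cast hA
  have hpi := Real.pi_pos
  have halg : IsAlgebraic ℚ y := by
    refine ⟨Polynomial.C (A : ℚ) * Polynomial.X ^ 2 + Polynomial.C (B : ℚ) * Polynomial.X +
      Polynomial.C (C : ℚ), ?_, ?_⟩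
    · intro h
      have h1 := congrArg (fun p => Polynomial.coeff p 2) h
      simp only [Polynomial.coeff_add, Polynomial.coeff_C_mul, Polynomial.coeff_X_pow,
        Polynomial.coeff_X, Polynomial.coeff_C, Polynomial.coeff_zero] at h1
      norm_num at h1
      omega
    · simp only [map_add, map_mul, map_pow, Polynomial.aeval_X, Polynomial.aeval_C]
      simpa using hq
  set g : ℕ := Int.gcd b (2 * A) with hg
  have hgpos : 0 < g := Int.gcd_pos_of_ne_zero_right _ (by omega)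
  have hgR : (0 : ℝ) < g := by exact_mod_cast hgpos
  set τ : ℝ := (g : ℝ) / A with hτ
  have hτ0 : 0 < τ := by positivity
  -- the known bound gives `c n ≤ K ^ 2`
  set κ : ℝ := 7 * Real.sqrt (((b : ℝ) - 1) * g / (48 * A)) with hκ
  have hκ0 : 0 < κ := by
    have : 0 < ((b : ℝ) - 1) * g / (48 * A) := by
      apply div_pos (mul_pos (by linarith) hgR) (by linarith)
    positivity
  obtain ⟨n1, hn1⟩ := quad_main hb hy0 hy1 hirr hA hq (κ / 2) (by positivity)
  set c : ℝ := (κ / 2) ^ 2 with hc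
  have hc0 : 0 < c := by positivity
  have hKc : ∀ n, n1 ≤ n → c * n ≤ (K b y n : ℝ) ^ 2 := by
    intro n hn
    have h1 := hn1 n hn
    have h2 : κ / 2 * Real.sqrt n ≤ K b y n := by
      have : (κ - κ / 2) * Real.sqrt n ≤ K b y n := h1
      linarith
    have h3 : (κ / 2 * Real.sqrt n) ^ 2 ≤ (K b y n : ℝ) ^ 2 := by
      apply pow_le_pow_left₀ (by positivity) h2
    rw [mul_pow, Real.sq_sqrt (Nat.cast_nonneg _)] at h3
    exact h3
  -- parameters
  set ε2 : ℝ := 1 / 100000 / (2 * (J + 1)) with hε2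
  have hJ : (0 : ℝ) < (J : ℝ) + 1 := by positivity
  have hε20 : 0 < ε2 := by positivity
  set δ : ℝ := min (1 / 4) (ε2 * c / (4 * ((b - 1) * τ))) with hδ
  have hbt : 0 < ((b : ℝ) - 1) * τ := mul_pos (by linarith) hτ0
  have hδ0 : 0 < δ := by positivity
  have hδ1 : δ ≤ 1 / 4 := min_le_left _ _
  have hδ2 : δ * (4 * ((b - 1) * τ)) ≤ ε2 * c := by
    rw [← le_div_iff₀ (by positivity)]; exact min_le_right _ _
  obtain ⟨C1, hC10, hC1⟩ := bad_count hb hy0 hy1 halg hirr |(B : ℝ)| δ hδ0 hδ1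
  have hB0 : 0 ≤ |(B : ℝ)| := abs_nonneg _
  set C2 : ℝ := |(B : ℝ)| + 2 * τ + τ * C1 + τ with hC2
  have hC20 : 0 ≤ C2 := by positivity
  obtain ⟨n2, hn2⟩ := P_sum_ge J (ε2 / 4) (by positivity)
  -- size of `K` and of `n`
  set M : ℝ := 4 * (2 + 2 * (b - 1) * C2) / ε2 + 1 with hM
  have hM1 : 1 ≤ M := by
    have : 0 ≤ 4 * (2 + 2 * ((b : ℝ) - 1) * C2) / ε2 := by
      apply div_nonneg _ hε20.le
      have : 0 ≤ (b : ℝ) - 1 := by linarith
      positivity
    rw [hM]; linarith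
  obtain ⟨n3, hn3⟩ := exists_nat_ge (M ^ 2 / c)
  obtain ⟨n4, hn4⟩ := exists_nat_ge (24 * b * (J + 1) * Real.pi / ε2)
  refine ⟨max (max n1 n2) (max n3 n4), fun n hn hsmall => ?_⟩
  have hnn1 : n1 ≤ n := ((le_max_left _ _).trans (le_max_left _ _)).trans hn
  have hnn2 : n2 ≤ n := ((le_max_right _ _).trans (le_max_left _ _)).trans hn
  have hnn3 : (n3 : ℝ) ≤ n := by
    exact_mod_cast ((le_max_left _ _).trans (le_max_right _ _)).trans hn
  have hnn4 : (n4 : ℝ) ≤ n := by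
    exact_mod_cast ((le_max_right _ _).trans (le_max_right _ _)).trans hn
  obtain ⟨hn0, hPs⟩ := hn2 n hnn2
  have hnR : (0 : ℝ) < n := by exact_mod_cast hn0
  have hKsq := hKc n hnn1
  have hK0 : (0 : ℝ) ≤ K b y n := Nat.cast_nonneg _
  have hMK : M ≤ K b y n := by
    have h1 : M ^ 2 ≤ (K b y n : ℝ) ^ 2 := by
      have h2 : M ^ 2 / c ≤ n := hn3.trans hnn3
      rw [div_le_iff₀ hc0] at h2
      linarith
    exact le_of_sq_le_sq h1 hK0
  have hKpos : 0 < K b y n := by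
    have : (0 : ℝ) < K b y n := by linarith
    exact_mod_cast this
  have hKR : (0 : ℝ) < K b y n := by exact_mod_cast hKpos
  have hK1 : (1 : ℝ) ≤ K b y n := by linarith
  -- the sum of the defects
  have hD : ∑ m ∈ range n, dd b y τ |(B : ℝ)| m ≤ C2 * (K b y n + 1) + τ * δ * n := by
    unfold dd
    rw [sum_add_distrib, sum_add_distrib, sum_add_distrib, ← mul_sum, ← mul_sum, ← mul_sum,
      sum_add_distrib]
    have h1 := ep_sum (b := b) hb hy0 hy1 n
    have h2 : (∑ m ∈ range n, (x b y m : ℝ)) ≤ K b y n := by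
      unfold K
      exact_mod_cast sum_le_sum_of_subset (range_mono (Nat.le_succ n))
    have h3 : (∑ m ∈ range n, (exc b y m : ℝ)) ≤ K b y n := by
      exact_mod_cast exc_sum b y n
    have h4 : (∑ m ∈ range n, (if T b y m ≤ |(B : ℝ)| * ep b y m then (1 : ℝ) else 0)) ≤
        C1 * (K b y n + 1) + δ * n := by
      have h5 := hC1 n
      rw [card_filter] at h5
      push_cast at h5
      exact h5
    have h5 := few_sum 0 n τ hτ0.le
    rw [Nat.cast_zero, zero_add, mul_one] at h5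
    have h6 := mul_le_mul_of_nonneg_left h1 hB0
    have h7 := mul_le_mul_of_nonneg_left (add_le_add h2 h3) hτ0.le
    have h8 := mul_le_mul_of_nonneg_left h4 hτ0.le
    have h9 : 0 ≤ τ * K b y n := mul_nonneg hτ0.le hK0
    have e : C2 * ((K b y n : ℝ) + 1) = |(B : ℝ)| * (K b y n + 1) + 2 * (τ * K b y n) + 2 * τ +
        τ * (C1 * (K b y n + 1)) + τ * K b y n + τ := by rw [hC2]; ring
    rw [e]
    linarith
  constructor
  · -- `y 0 = 1`
    unfold Y
    simp only [pow_zero, mul_one]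
    rw [← Complex.ofReal_sum, w_sum hKpos, Complex.ofReal_one]
  · intro q
    rw [lin_Y]
    refine sum_nonneg fun i _ => mul_nonneg (by positivity) ?_
    rw [lin_toTrig q _ (Z_normSq n i)]
    exact Complex.normSq_nonneg _
  · intro q
    rw [lin_Y]
    refine sum_nonneg fun i hi => mul_nonneg (by positivity) ?_
    rw [lin_mulSin _ _ (Z_normSq n i), lin_toTrig q _ (Z_normSq n i)]
    have h1 := Z_im_nonneg (n := n) (m := i) (by have := mem_range.1 hi; omega)
    have h2 := Complex.normSq_nonneg (evalC q (Z n i))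
    positivity
  · intro q hql
    obtain ⟨hN0, hN1⟩ := S1_sq_le q
    set N := lin (toTrig q) (fun n => if n = 0 then 1 else 0)
    have hS0 : 0 ≤ S1 q ^ 2 := sq_nonneg _
    have hqlR : (q.length : ℝ) ≤ J + 1 := by exact_mod_cast hql
    have hSN : ε2 * S1 q ^ 2 ≤ 1 / 100000 * N := by
      have h1 : S1 q ^ 2 ≤ 2 * (J + 1) * N := by
        refine hN1.trans ?_
        apply mul_le_mul_of_nonneg_right _ hN0
        linarith
      have h2 : ε2 * S1 q ^ 2 ≤ ε2 * (2 * (J + 1) * N) := mul_le_mul_of_nonneg_left h1 hε20.le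
      have h3 : ε2 * (2 * (J + 1) * N) = 1 / 100000 * N := by
        rw [hε2]; field_simp
      linarith
    have h1 := pairs_ge hb hy0 hy1 hirr (τ := τ) (n := n)
      (fun m => dd_nonneg hy0 hτ0.le hB0 m) (fun m => T_lower' hb hy0 hy1 hirr hA hq m) hD hn0 q
    have h2 := hPs q hql
    rw [lin_Y_sq]
    set W := ∑ p ∈ range (n + 1) ×ˢ range (n + 1),
      (x b y p.1 : ℝ) * x b y p.2 * P q n (p.1 + p.2)
    set SP := ∑ m ∈ range n, P q n m
    have hSP0 : 0 ≤ SP := sum_nonneg fun m _ => P_nonneg _ _ _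
    set k : ℝ := (K b y n : ℝ) with hk
    have hk2 : 0 < k ^ 2 := by positivity
    -- the error terms
    have herr : 2 * b * q.length * (Real.pi / n) * (k ^ 2 + k + 1) + (k + 1) +
        (b - 1) * (C2 * (k + 1) + τ * δ * n) ≤ 3 * ε2 / 4 * k ^ 2 := by
      have g1 : 2 * b * q.length * (Real.pi / n) * (k ^ 2 + k + 1) ≤ ε2 / 4 * k ^ 2 := by
        have g2 : k ^ 2 + k + 1 ≤ 3 * k ^ 2 := by nlinarith
        have g3 : 2 * (b : ℝ) * q.length * (Real.pi / n) ≤ ε2 / 12 := by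
          have g4 : 24 * b * (J + 1) * Real.pi ≤ ε2 * n := by
            have := hn4.trans hnn4
            rw [div_le_iff₀ hε20] at this
            linarith
          have g5 : 2 * (b : ℝ) * q.length * (Real.pi / n) ≤
              2 * (b : ℝ) * (J + 1) * (Real.pi / n) := by
            apply mul_le_mul_of_nonneg_right _ (by positivity)
            apply mul_le_mul_of_nonneg_left hqlR (by positivity)
          refine g5.trans ?_
          have e : 2 * (b : ℝ) * (J + 1) * (Real.pi / n) = 24 * b * (J + 1) * Real.pi / 12 / n := by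
            field_simp; norm_num
          rw [e, div_le_iff₀ hnR]
          linarith
        calc 2 * b * q.length * (Real.pi / n) * (k ^ 2 + k + 1)
            ≤ ε2 / 12 * (3 * k ^ 2) := mul_le_mul g3 g2 (by positivity) (by positivity)
          _ = ε2 / 4 * k ^ 2 := by ring
      have g2 : (k + 1) + (b - 1) * (C2 * (k + 1)) ≤ ε2 / 4 * k ^ 2 := by
        have g3 : 4 * (2 + 2 * (b - 1) * C2) ≤ ε2 * k := by
          have : 4 * (2 + 2 * (b - 1) * C2) / ε2 ≤ k := by rw [hM] at hMK; linarith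
          rw [div_le_iff₀ hε20] at this
          linarith
        have g4 : 0 ≤ ((b : ℝ) - 1) * C2 := mul_nonneg (by linarith) hC20
        have g5 : k + 1 ≤ 2 * k := by linarith
        have g6 : (1 + (b - 1) * C2) * (k + 1) ≤ (1 + (b - 1) * C2) * (2 * k) :=
          mul_le_mul_of_nonneg_left g5 (by linarith)
        have g7 : (2 + 2 * (b - 1) * C2) * k ≤ ε2 / 4 * k * k := by
          apply mul_le_mul_of_nonneg_right _ hKR.le
          linarith
        nlinarith
      have g3 : (b - 1) * (τ * δ * n) ≤ ε2 / 4 * k ^ 2 := by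
        have g4 : δ * (4 * ((b - 1) * τ)) * n ≤ ε2 * c * n :=
          mul_le_mul_of_nonneg_right hδ2 hnR.le
        have g5 : ε2 * (c * n) ≤ ε2 * k ^ 2 := mul_le_mul_of_nonneg_left hKsq hε20.le
        nlinarith
      nlinarith
    have h3 : (b - 1) * τ * SP - 3 * ε2 / 4 * k ^ 2 * S1 q ^ 2 ≤ W := by
      have := mul_le_mul_of_nonneg_left herr hS0
      nlinarith
    -- `(b - 1) τ ≥ Λ k² / n`
    have h4 : Λ * k ^ 2 * (SP / n) ≤ (b - 1) * τ * SP := by
      have h5 : Λ * k ^ 2 * SP ≤ (b - 1) * τ * n * SP :=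
        mul_le_mul_of_nonneg_right hsmall hSP0
      have h6 : Λ * k ^ 2 * (SP / n) = Λ * k ^ 2 * SP / n := by ring
      rw [h6, div_le_iff₀ hnR]
      linarith
    have h5 : Λ * k ^ 2 * (lin (toTrig q) aseq - ε2 / 4 * S1 q ^ 2) ≤ Λ * k ^ 2 * (SP / n) :=
      mul_le_mul_of_nonneg_left h2 (by positivity)
    have h6 : Λ * k ^ 2 * (ε2 / 4 * S1 q ^ 2) ≤ 1 * (k ^ 2 * (ε2 / 4 * S1 q ^ 2)) := by
      rw [mul_assoc]
      exact mul_le_mul_of_nonneg_right hΛ1 (by positivity)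
    have h7 : k ^ 2 * (Λ * lin (toTrig q) aseq) ≤ W + k ^ 2 * (1 / 100000 * N) := by
      have h8 := mul_le_mul_of_nonneg_left hSN hk2.le
      nlinarith
    have h8 : Λ * lin (toTrig q) aseq ≤ (W + k ^ 2 * (1 / 100000 * N)) / k ^ 2 := by
      rw [le_div_iff₀ hk2]
      linarith
    refine h8.trans (le_of_eq ?_)
    field_simp

end

end Pool.Agent.L7h21.Sq
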