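import Pool.Agent.L7h21.Sq.Est
import Pool.Agent.H820R3.DG.Quad

/-!
# The Fourier coefficients of the digits
-/

set_option autoImplicit false
set_option linter.unusedSectionVars false

open Finset Filter Topology

namespace Pool.Agent.L7h21.Sq

/-- `exp (π i m / n)` -/
noncomputable def Z (n m : ℕ) : ℂ := Complex.exp (((Real.pi * m / n : ℝ) : ℂ) * Complex.I)

lemma Z_norm (n m : ℕ) : ‖Z n m‖ = 1 := Complex.norm_exp_ofReal_mul_I _

lemma Z_normSq (n m : ℕ) : Complex.normSq (Z n m) = 1 := by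
  rw [Complex.normSq_eq_norm_sq, Z_norm, one_pow]

lemma Z_mul (n i j : ℕ) : Z n i * Z n j = Z n (i + j) := by
  unfold Z
  rw [← Complex.exp_add]
  congr 1
  push_cast
  ring

lemma Z_im (n m : ℕ) : (Z n m).im = Real.sin (Real.pi * m / n) := by
  unfold Z
  rw [Complex.exp_ofReal_mul_I_im]

lemma Z_im_nonneg {n m : ℕ} (h : m ≤ n) : 0 ≤ (Z n m).im := by
  rw [Z_im]
  have hpi := Real.pi_pos
  rcases Nat.eq_zero_or_pos n with hn | hn
  · subst hn
    simp
  · have hn0 : (0 : ℝ) < n := by exact_mod_cast hn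
    have hm : (m : ℝ) ≤ n := by exact_mod_cast h
    apply Real.sin_nonneg_of_nonneg_of_le_pi (by positivity)
    rw [div_le_iff₀ hn0]
    nlinarith

lemma Z_sub {n : ℕ} (hn : 0 < n) (m : ℕ) : ‖Z n (m + 1) - Z n m‖ ≤ Real.pi / n := by
  have e : Z n (m + 1) - Z n m = Z n m * (Z n 1 - 1) := by
    rw [mul_sub, Z_mul, mul_one]
  rw [e, norm_mul, Z_norm, one_mul]
  have h := Real.norm_exp_I_mul_ofReal_sub_one_le (x := Real.pi * (1 : ℕ) / n)
  unfold Z
  rw [mul_comm]
  refine h.trans ?_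
  rw [Nat.cast_one, mul_one, Real.norm_eq_abs, abs_of_nonneg]
  have := Real.pi_pos
  positivity

/-- the value of `|q| ^ 2` at `exp (π i m / n)` -/
noncomputable def P (q : List (ℤ × ℤ)) (n m : ℕ) : ℝ := Complex.normSq (evalC q (Z n m))

lemma P_nonneg (q : List (ℤ × ℤ)) (n m : ℕ) : 0 ≤ P q n m := Complex.normSq_nonneg _

lemma P_le (q : List (ℤ × ℤ)) (n m : ℕ) : P q n m ≤ S1 q ^ 2 :=
  normSq_evalC_le q (Z_norm n m).le

lemma P_eq (q : List (ℤ × ℤ)) (n m : ℕ) : P q n m = lin (toTrig q) (fun j => Z n m ^ j) := by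
  rw [lin_toTrig q _ (Z_normSq n m)]
  rfl

lemma P_sub (q : List (ℤ × ℤ)) {n : ℕ} (hn : 0 < n) (m : ℕ) :
    |P q n (m + 1) - P q n m| ≤ 2 * q.length * S1 q ^ 2 * (Real.pi / n) := by
  refine (normSq_evalC_sub q (Z_norm _ _).le (Z_norm _ _).le).trans ?_
  have := S1_nonneg q
  exact mul_le_mul_of_nonneg_left (Z_sub hn m) (by positivity)

/-! ### Riemann sums -/

lemma exp_slope (j : ℕ) : Tendsto (fun n : ℕ => (n : ℂ) *
    (Complex.exp (((Real.pi * j / n : ℝ) : ℂ) * Complex.I) - 1)) atTop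
    (𝓝 ((Real.pi * j : ℝ) * Complex.I)) := by
  set c : ℂ := (Real.pi * j : ℝ) * Complex.I with hc
  have h1 : HasDerivAt (fun t : ℂ => Complex.exp (t * c)) c 0 := by
    have h2 : HasDerivAt (fun t : ℂ => t * c) (1 * c) 0 := (hasDerivAt_id (0 : ℂ)).mul_const c
    have h3 := h2.cexp
    simpa using h3
  have h2 := h1.tendsto_slope_zero
  have h3 : Tendsto (fun n : ℕ => ((n : ℂ))⁻¹) atTop (𝓝[≠] 0) := by
    rw [tendsto_nhdsWithin_iff]
    refine ⟨?_, ?_⟩
    · exact tendsto_inv_atTop_nhds_zero_nat (𝕜 := ℂ)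
    · filter_upwards [eventually_gt_atTop 0] with n hn
      simp
      omega
  have h4 := h2.comp h3
  refine h4.congr ?_
  intro n
  simp only [Function.comp, zero_add, inv_inv, zero_mul, Complex.exp_zero, smul_eq_mul]
  congr 3
  rw [hc]
  push_cast
  ring

lemma Z_sum_tendsto (j : ℕ) : Tendsto (fun n : ℕ => (∑ m ∈ range n, Z n m ^ j) / n) atTop
    (𝓝 (aseq j)) := by
  have hpi := Real.pi_pos
  rcases Nat.eq_zero_or_pos j with hj | hj
  · subst hj
    have h1 : aseq 0 = 1 := by simp [aseq]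
    rw [h1]
    refine Tendsto.congr' ?_ tendsto_const_nhds
    filter_upwards [eventually_gt_atTop 0] with n hn
    simp
    rw [div_self]
    exact_mod_cast hn.ne'
  · -- the ratio of the geometric sum
    have hj0 : (0 : ℝ) < j := by exact_mod_cast hj
    have hc : ((Real.pi * j : ℝ) : ℂ) * Complex.I ≠ 0 := by
      apply mul_ne_zero _ Complex.I_ne_zero
      exact_mod_cast (by positivity : Real.pi * j ≠ 0)
    have hexp : Complex.exp (((Real.pi * j : ℝ) : ℂ) * Complex.I) = (-1) ^ j := by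
      have : ((Real.pi * j : ℝ) : ℂ) * Complex.I = (j : ℕ) * (Real.pi * Complex.I) := by
        push_cast; ring
      rw [this, Complex.exp_nat_mul, Complex.exp_pi_mul_I]
    have hlim : aseq j = ((-1) ^ j - 1) / (((Real.pi * j : ℝ) : ℂ) * Complex.I) := by
      unfold aseq
      rw [if_neg hj.ne']
      rcases Nat.mod_two_eq_zero_or_one j with h | h
      · rw [if_neg (by omega)]
        have : Even j := Nat.even_iff.2 h
        rw [this.neg_one_pow]
        simp
      · rw [if_pos h]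
        have : Odd j := Nat.odd_iff.2 h
        rw [this.neg_one_pow, eq_div_iff hc]
        have h1 : (Real.pi : ℂ) ≠ 0 := by exact_mod_cast hpi.ne'
        have h2 : (j : ℂ) ≠ 0 := by exact_mod_cast hj.ne'
        push_cast
        have : (2 / ((Real.pi : ℂ) * j) * Complex.I) * (Real.pi * j * Complex.I) =
            2 * (Complex.I * Complex.I) := by
          field_simp
        rw [this, Complex.I_mul_I]
        norm_num
    rw [hlim]
    have h1 : Tendsto (fun n : ℕ => ((-1 : ℂ) ^ j - 1) / ((n : ℂ) *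
        (Complex.exp (((Real.pi * j / n : ℝ) : ℂ) * Complex.I) - 1))) atTop
        (𝓝 (((-1) ^ j - 1) / (((Real.pi * j : ℝ) : ℂ) * Complex.I))) :=
      tendsto_const_nhds.div (exp_slope j) hc
    refine Tendsto.congr' ?_ h1
    have h2 : ∀ᶠ n : ℕ in atTop, (n : ℂ) *
        (Complex.exp (((Real.pi * j / n : ℝ) : ℂ) * Complex.I) - 1) ≠ 0 :=
      (exp_slope j).eventually_ne hc
    filter_upwards [h2, eventually_gt_atTop 0] with n hn hn0
    have hn1 : (n : ℂ) ≠ 0 := by exact_mod_cast hn0.ne'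
    set w : ℂ := Complex.exp (((Real.pi * j / n : ℝ) : ℂ) * Complex.I) with hw
    have hw1 : w - 1 ≠ 0 := right_ne_zero_of_mul hn
    have e1 : ∀ m, Z n m ^ j = w ^ m := by
      intro m
      unfold Z
      rw [hw, ← Complex.exp_nat_mul, ← Complex.exp_nat_mul]
      congr 1
      push_cast
      ring
    have e2 : w ^ n = (-1) ^ j := by
      rw [hw, ← Complex.exp_nat_mul, ← hexp]
      congr 1
      push_cast
      field_simp
    simp only [e1]
    have e3 := geom_sum_eq (x := w) (fun h => hw1 (by rw [h, sub_self])) n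
    rw [e3, e2]
    field_simp

/-- uniform comparison of Riemann sums and integrals -/
lemma P_sum_ge (J : ℕ) (ε : ℝ) (hε : 0 < ε) : ∃ n0 : ℕ, ∀ n, n0 ≤ n → 0 < n ∧
    ∀ q : List (ℤ × ℤ), q.length ≤ J + 1 →
      lin (toTrig q) aseq - ε * S1 q ^ 2 ≤ (∑ m ∈ range n, P q n m) / n := by
  have h1 : ∀ j : ℕ, ∀ᶠ n : ℕ in atTop, ‖(∑ m ∈ range n, Z n m ^ j) / n - aseq j‖ ≤ ε := by
    intro j
    have := Metric.tendsto_nhds.1 (Z_sum_tendsto j) ε hε
    filter_upwards [this] with n hn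
    rw [dist_eq_norm] at hn
    exact hn.le
  have h2 : ∀ᶠ n : ℕ in atTop, ∀ j ∈ range (J + 1),
      ‖(∑ m ∈ range n, Z n m ^ j) / n - aseq j‖ ≤ ε := by
    rw [eventually_all_finset]
    intro j _
    exact h1 j
  obtain ⟨n0, hn0⟩ := eventually_atTop.1 (h2.and (eventually_gt_atTop 0))
  refine ⟨n0, fun n hn => ⟨(hn0 n hn).2, fun q hq => ?_⟩⟩
  obtain ⟨h3, h4⟩ := hn0 n hn
  have hn' : (n : ℂ) ≠ 0 := by exact_mod_cast h4.ne'
  have e1 : (∑ m ∈ range n, P q n m) / n =
      lin (toTrig q) (fun j => (∑ m ∈ range n, Z n m ^ j) / n) := by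
    have e2 := lin_sum (toTrig q) (range n) (fun _ => (1 / n : ℝ)) (fun m j => Z n m ^ j)
    have e3 : (fun j => ∑ m ∈ range n, (((1 / n : ℝ)) : ℂ) * Z n m ^ j) =
        (fun j => (∑ m ∈ range n, Z n m ^ j) / n) := by
      funext j
      rw [← mul_sum]
      push_cast
      ring
    rw [e3] at e2
    rw [e2]
    simp only [← P_eq]
    rw [← mul_sum]
    ring
  rw [e1]
  have e4 : (fun j => (∑ m ∈ range n, Z n m ^ j) / n) =
      (fun j => aseq j + ((∑ m ∈ range n, Z n m ^ j) / n - aseq j)) := by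
    funext j; ring
  rw [e4, lin_add_fun]
  have h5 := abs_lin_le (toTrig q) (fun j => (∑ m ∈ range n, Z n m ^ j) / n - aseq j) ε (by
    intro j hj
    rw [toTrig_length] at hj
    exact h3 j (mem_range.2 (by omega)))
  have h6 := S1_toTrig q
  have h7 : S1 (toTrig q) * ε ≤ S1 q ^ 2 * ε := mul_le_mul_of_nonneg_right h6 hε.le
  have h8 := (abs_le.1 h5).1
  linarith

end Pool.Agent.L7h21.Sq
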