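import Mathlib

/-!
# Coefficient lists of squares of absolute values of polynomials on the unit circle

A list `c` of pairs of integers stands for the real linear form `∑ c_j.1 Re y_j + c_j.2 Im y_j` in a
complex sequence `y`.  `toTrig q` is the list of `|∑ q_k z ^ k| ^ 2` and `mulSin c` the list of
`2 Im z` times `c`, for `|z| = 1` and `y_j = z ^ j`.
-/

set_option autoImplicit false

namespace Pool.Agent.L7h21.Sq

/-- the linear form with the coefficients `c` -/
def lin : List (ℤ × ℤ) → (ℕ → ℂ) → ℝ
  | [], _ => 0
  | c :: cs, y => c.1 * (y 0).re + c.2 * (y 0).im + lin cs (fun n => y (n + 1))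

/-- sum of coefficient lists -/
def addL : List (ℤ × ℤ) → List (ℤ × ℤ) → List (ℤ × ℤ)
  | [], b => b
  | a :: as, [] => a :: as
  | a :: as, b :: bs => (a.1 + b.1, a.2 + b.2) :: addL as bs

/-- a polynomial with Gaussian integer coefficients -/
def evalC : List (ℤ × ℤ) → ℂ → ℂ
  | [], _ => 0
  | a :: as, z => ⟨a.1, a.2⟩ + z * evalC as z

/-- the coefficients of `2 Re (conj a * z * q z)` from the first power on -/
def cross (a : ℤ × ℤ) : List (ℤ × ℤ) → List (ℤ × ℤ)
  | [] => []
  | b :: bs => (2 * (a.1 * b.1 + a.2 * b.2), 2 * (a.2 * b.1 - a.1 * b.2)) :: cross a bs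

/-- the coefficients of `|q z| ^ 2` -/
def toTrig : List (ℤ × ℤ) → List (ℤ × ℤ)
  | [] => []
  | a :: as => addL ((a.1 * a.1 + a.2 * a.2, 0) :: cross a as) (toTrig as)

/-- scalar multiplication by `i` of the coefficients, for `Im z ↦` -/
def rotL : List (ℤ × ℤ) → List (ℤ × ℤ)
  | [] => []
  | b :: bs => (-b.2, b.1) :: rotL bs

/-- minus -/
def negL : List (ℤ × ℤ) → List (ℤ × ℤ)
  | [] => []
  | b :: bs => (-b.1, -b.2) :: negL bs

/-- the coefficients of `2 Im z` times the form `c` -/
def mulSin : List (ℤ × ℤ) → List (ℤ × ℤ)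
  | [] => []
  | c :: cs => addL ((0, 0) :: (0, c.1) :: [])
      (addL ((0, 0) :: rotL ((c.1, 0) :: cs)) (negL (rotL cs)))

lemma lin_add_fun (c : List (ℤ × ℤ)) (y w : ℕ → ℂ) :
    lin c (fun n => y n + w n) = lin c y + lin c w := by
  induction c generalizing y w with
  | nil => simp [lin]
  | cons a as ih =>
    simp only [lin]
    rw [ih]
    simp only [Complex.add_re, Complex.add_im]
    ring

lemma lin_smul_fun (c : List (ℤ × ℤ)) (y : ℕ → ℂ) (t : ℝ) :
    lin c (fun n => (t : ℂ) * y n) = t * lin c y := by
  induction c generalizing y with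
  | nil => simp [lin]
  | cons a as ih =>
    simp only [lin]
    rw [ih]
    simp only [Complex.re_ofReal_mul, Complex.im_ofReal_mul]
    ring

lemma lin_zero_fun (c : List (ℤ × ℤ)) : lin c (fun _ => 0) = 0 := by
  induction c with
  | nil => simp [lin]
  | cons a as ih => simp [lin, ih]

lemma lin_sum {ι : Type*} (c : List (ℤ × ℤ)) (s : Finset ι) (w : ι → ℝ) (y : ι → ℕ → ℂ) :
    lin c (fun n => ∑ i ∈ s, (w i : ℂ) * y i n) = ∑ i ∈ s, w i * lin c (y i) := by
  classical
  induction s using Finset.induction_on with
  | empty => simp [lin_zero_fun]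
  | insert a s ha ih =>
    simp only [Finset.sum_insert ha]
    rw [lin_add_fun, lin_smul_fun, ih]

lemma lin_addL (a b : List (ℤ × ℤ)) (y : ℕ → ℂ) : lin (addL a b) y = lin a y + lin b y := by
  induction a generalizing b y with
  | nil => simp [addL, lin]
  | cons a as ih =>
    cases b with
    | nil => simp [addL, lin]
    | cons b bs =>
      simp only [addL, lin, ih]
      push_cast
      ring

lemma lin_cross (a : ℤ × ℤ) (b : List (ℤ × ℤ)) (z u : ℂ) :
    lin (cross a b) (fun n => u * z ^ n) =
      2 * ((starRingEnd ℂ) ⟨a.1, a.2⟩ * u * evalC b z).re := by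
  induction b generalizing u with
  | nil => simp [cross, lin, evalC]
  | cons b bs ih =>
    simp only [cross, lin, evalC]
    have h : (fun n => u * z ^ (n + 1)) = (fun n => (u * z) * z ^ n) := by
      funext n; ring
    rw [h, ih]
    simp only [pow_zero, mul_one, Complex.mul_re, Complex.mul_im, Complex.conj_re, Complex.conj_im,
      Complex.add_re, Complex.add_im]
    push_cast
    ring

lemma lin_toTrig (q : List (ℤ × ℤ)) (z : ℂ) (hz : Complex.normSq z = 1) :
    lin (toTrig q) (fun n => z ^ n) = Complex.normSq (evalC q z) := by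
  induction q with
  | nil => simp [toTrig, lin, evalC]
  | cons a as ih =>
    simp only [toTrig, evalC, lin_addL]
    rw [ih]
    have h1 : lin ((a.1 * a.1 + a.2 * a.2, 0) :: cross a as) (fun n => z ^ n) =
        ((a.1 * a.1 + a.2 * a.2 : ℤ) : ℝ) + lin (cross a as) (fun n => z * z ^ n) := by
      simp only [lin, pow_zero, Complex.one_re, Complex.one_im]
      have h : (fun n => z ^ (n + 1)) = (fun n => z * z ^ n) := by funext n; ring
      rw [h]
      push_cast
      ring
    rw [h1, lin_cross]
    rw [Complex.normSq_add, Complex.normSq_mul, hz]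
    have h2 : Complex.normSq (⟨a.1, a.2⟩ : ℂ) = a.1 * a.1 + a.2 * a.2 := by
      rw [Complex.normSq_mk]
    rw [h2]
    have h3 : ((starRingEnd ℂ) (⟨a.1, a.2⟩ : ℂ) * z * evalC as z).re =
        ((⟨a.1, a.2⟩ : ℂ) * (starRingEnd ℂ) (z * evalC as z)).re := by
      simp only [Complex.mul_re, Complex.mul_im, Complex.conj_re, Complex.conj_im]
      ring
    rw [h3]
    push_cast
    ring

lemma toTrig_length (q : List (ℤ × ℤ)) : (toTrig q).length = q.length := by
  have h1 : ∀ (a : ℤ × ℤ) (b : List (ℤ × ℤ)), (cross a b).length = b.length := by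
    intro a b
    induction b with
    | nil => rfl
    | cons b bs ih => simp [cross, ih]
  have h2 : ∀ a b : List (ℤ × ℤ), b.length ≤ a.length → (addL a b).length = a.length := by
    intro a
    induction a with
    | nil => intro b hb; simp at hb; simp [addL, hb]
    | cons a as ih =>
      intro b hb
      cases b with
      | nil => simp [addL]
      | cons b bs => simp only [addL, List.length_cons] at hb ⊢; rw [ih bs (by omega)]
  induction q with
  | nil => rfl
  | cons a as ih =>
    simp only [toTrig]
    rw [h2 _ _ (by simp [h1, ih])]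
    simp [h1]

lemma lin_rotL (c : List (ℤ × ℤ)) (y : ℕ → ℂ) :
    lin (rotL c) y = lin c (fun n => -Complex.I * y n) := by
  induction c generalizing y with
  | nil => simp [rotL, lin]
  | cons a as ih =>
    simp only [rotL, lin, ih]
    simp
    ring

lemma lin_negL (c : List (ℤ × ℤ)) (y : ℕ → ℂ) : lin (negL c) y = - lin c y := by
  induction c generalizing y with
  | nil => simp [negL, lin]
  | cons a as ih =>
    simp only [negL, lin, ih]
    push_cast
    ring

lemma lin_mulSin (c : List (ℤ × ℤ)) (z : ℂ) (hz : Complex.normSq z = 1) :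
    lin (mulSin c) (fun n => z ^ n) = 2 * z.im * lin c (fun n => z ^ n) := by
  cases c with
  | nil => simp [mulSin, lin]
  | cons c cs =>
    simp only [mulSin, lin_addL]
    have hz' : z.re * z.re + z.im * z.im = 1 := by rw [← Complex.normSq_apply]; exact hz
    have key : ∀ w : ℂ, ((2 * z.im : ℝ) : ℂ) * (z * w) = -Complex.I * (z * (z * w)) +
        Complex.I * w := by
      intro w
      have e : (((2 * z.im : ℝ) : ℂ)) * z = -Complex.I * (z * z) + Complex.I := by
        apply Complex.ext
        · simp
          ring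
        · simp
          nlinarith
      calc ((2 * z.im : ℝ) : ℂ) * (z * w) = ((((2 * z.im : ℝ) : ℂ)) * z) * w := by ring
        _ = _ := by rw [e]; ring
    have h1 : lin ((0, 0) :: (0, c.1) :: []) (fun n => z ^ n) = c.1 * z.im := by
      simp [lin]
    have h2 : lin ((0, 0) :: rotL ((c.1, 0) :: cs)) (fun n => z ^ n) =
        c.1 * z.im + lin cs (fun n => -Complex.I * (z * (z * z ^ n))) := by
      have e1 : lin ((0, 0) :: rotL ((c.1, 0) :: cs)) (fun n => z ^ n) =
          lin (rotL ((c.1, 0) :: cs)) (fun n => z ^ (n + 1)) := by simp [lin]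
      rw [e1, lin_rotL]
      simp only [lin]
      have e2 : (fun n => -Complex.I * z ^ (n + 1 + 1)) =
          (fun n => -Complex.I * (z * (z * z ^ n))) := by funext n; ring
      rw [e2]
      simp
    have h3 : lin (negL (rotL cs)) (fun n => z ^ n) = lin cs (fun n => Complex.I * z ^ n) := by
      rw [lin_negL, lin_rotL]
      have e3 : (fun n => -Complex.I * z ^ n) =
          (fun n => ((-1 : ℝ) : ℂ) * (Complex.I * z ^ n)) := by
        funext n; push_cast; ring
      rw [e3, lin_smul_fun]
      ring
    have h4 : lin (c :: cs) (fun n => z ^ n) = c.1 + lin cs (fun n => z * z ^ n) := by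
      simp only [lin]
      have e4 : (fun n => z ^ (n + 1)) = (fun n => z * z ^ n) := by funext n; ring
      rw [e4]
      simp
    rw [h1, h2, h3, h4]
    have h5 : (2 * z.im) * lin cs (fun n => z * z ^ n) =
        lin cs (fun n => -Complex.I * (z * (z * z ^ n))) + lin cs (fun n => Complex.I * z ^ n) := by
      rw [← lin_smul_fun, ← lin_add_fun]
      congr 1
      funext n
      exact key _
    rw [mul_add, h5]
    ring

end Pool.Agent.L7h21.Sq
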