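import Pool.Agent.H820R3.DG.Quad

/-!
# The representation function of the sums of two places of ones, base two
-/

set_option autoImplicit false

open Finset

namespace Pool.Agent.L7h21.Sq.Uniq

open Pool.Agent.H394R2.Ones
open Pool.Agent.H820R3.DG

lemma sum_r_le (b : ℕ) (y : ℝ) (n : ℕ) :
    ∑ m ∈ range (n + 1), r b y m ≤ K b y n ^ 2 := by
  unfold K r
  rw [sq, sum_mul_sum, ← sum_product']
  rw [← sum_biUnion]
  · apply sum_le_sum_of_subset
    intro p hp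
    rw [mem_biUnion] at hp
    obtain ⟨m, hm, hpm⟩ := hp
    rw [HasAntidiagonal.mem_antidiagonal] at hpm
    rw [mem_range] at hm
    rw [mem_product, mem_range, mem_range]
    omega
  · intro m _ m' _ hne
    rw [Function.onFun, disjoint_left]
    intro p hp hp'
    rw [HasAntidiagonal.mem_antidiagonal] at hp hp'
    exact hne (hp.symm.trans hp')

section
variable {y : ℝ} (hy0 : 0 < y) (hy1 : y < 1) (hirr : Irrational y)
include hy0 hy1 hirr

lemma sum_T (n : ℕ) : ∑ m ∈ range n, T 2 y m ≤ (K 2 y n : ℝ) ^ 2 + K 2 y n + 1 := by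
  have h1 : ∀ n : ℕ, ∑ m ∈ range n, T 2 y m + T 2 y 0 =
      ∑ m ∈ range n, (r 2 y (m + 1) : ℝ) + T 2 y n := by
    intro n
    induction n with
    | zero => simp
    | succ n ih =>
      rw [sum_range_succ, sum_range_succ, T_succ le_rfl hy0 hy1]
      push_cast
      linarith
  have h2 := h1 n
  have h3 := T_pos le_rfl hy0 hy1 hirr (b := 2) 0
  have h4 := T_le le_rfl hy0 hy1 (b := 2) n
  have h5 : (∑ m ∈ range n, (r 2 y (m + 1) : ℝ)) ≤ (K 2 y n : ℝ) ^ 2 := by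
    have h6 := sum_r_le 2 y n
    rw [sum_range_succ'] at h6
    have h7 : ∑ m ∈ range n, r 2 y (m + 1) ≤ K 2 y n ^ 2 := by omega
    exact_mod_cast h7
  linarith

variable {B C : ℤ} (hq : y ^ 2 + B * y + C = 0)
include hq

/-- the good places -/
def Gd (y : ℝ) (B : ℤ) (m : ℕ) : Prop :=
  x 2 y m = 0 ∧ exc 2 y m = 0 ∧ |(B : ℝ)| * ep 2 y m < T 2 y m

lemma gd_int {m : ℕ} (hm : 1 ≤ m) (h : Gd y B m) :
    ∃ z : ℤ, 1 ≤ z ∧ T 2 y m + B * ep 2 y m = 2 * z := by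
  obtain ⟨hx1, hx2, hbad⟩ := h
  have hep := ep_nonneg (b := 2) hy0 m
  have hr : r 2 y m % 2 = 0 := by
    by_contra hcon
    obtain ⟨h1, h2⟩ := r_parity (b := 2) (y := y) m (by omega)
    unfold exc at hx2
    rw [if_pos h1] at hx2
    omega
  have hZ : ∀ k : ℕ, T 2 y k + B * ep 2 y k =
      ((-C * (2 : ℤ) ^ k - S 2 y k - B * Pool.Agent.H394R2.Ones.B 2 y k : ℤ) : ℝ) := by
    intro k
    unfold T ep
    push_cast
    linear_combination ((2 : ℝ) ^ k) * hq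
  obtain ⟨k, rfl⟩ : ∃ k, m = k + 1 := ⟨m - 1, by omega⟩
  have h1 := hZ (k + 1)
  have hrec : (-C * (2 : ℤ) ^ (k + 1) - S 2 y (k + 1) -
      B * Pool.Agent.H394R2.Ones.B 2 y (k + 1) : ℤ) =
      2 * (-C * (2 : ℤ) ^ k - S 2 y k - B * Pool.Agent.H394R2.Ones.B 2 y k) - r 2 y (k + 1) := by
    rw [S_succ (b := 2) le_rfl hy0 hy1, B_succ (b := 2) le_rfl, hx1]
    push_cast
    ring
  obtain ⟨r', hr'⟩ : ∃ r' : ℕ, r 2 y (k + 1) = 2 * r' := ⟨r 2 y (k + 1) / 2, by omega⟩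
  rw [hr'] at hrec
  refine ⟨-C * (2 : ℤ) ^ k - S 2 y k - B * Pool.Agent.H394R2.Ones.B 2 y k - r', ?_, ?_⟩
  · have habs : -|(B : ℝ)| * ep 2 y (k + 1) ≤ B * ep 2 y (k + 1) :=
      mul_le_mul_of_nonneg_right (neg_abs_le _) hep
    have h2 : (0 : ℝ) < ((-C * (2 : ℤ) ^ (k + 1) - S 2 y (k + 1) -
        B * Pool.Agent.H394R2.Ones.B 2 y (k + 1) : ℤ) : ℝ) := by
      rw [← h1]; linarith
    have h3 : (0 : ℤ) < (-C * (2 : ℤ) ^ (k + 1) - S 2 y (k + 1) -
        B * Pool.Agent.H394R2.Ones.B 2 y (k + 1) : ℤ) := by exact_mod_cast h2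
    rw [hrec] at h3
    push_cast at h3 ⊢
    omega
  · rw [h1, hrec]
    push_cast
    ring

/-- two consecutive good places -/
lemma gd_two {m : ℕ} (hm : 1 ≤ m) (h : Gd y B m) (h' : Gd y B (m + 1)) :
    ∃ z z' : ℤ, 1 ≤ z ∧ 1 ≤ z' ∧ T 2 y m + B * ep 2 y m = 2 * z ∧
      T 2 y (m + 1) + B * ep 2 y (m + 1) = 2 * z' ∧ (r 2 y (m + 1) : ℤ) = 4 * z - 2 * z' := by
  obtain ⟨z, hz1, hz2⟩ := gd_int hy0 hy1 hirr hq hm h
  obtain ⟨z', hz1', hz2'⟩ := gd_int hy0 hy1 hirr hq (by omega) h'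
  refine ⟨z, z', hz1, hz1', hz2, hz2', ?_⟩
  have h1 := T_succ (b := 2) le_rfl hy0 hy1 m
  have h2 := ep_succ (b := 2) (y := y) le_rfl m
  rw [h'.1] at h2
  push_cast at h1 h2
  have h3 : (r 2 y (m + 1) : ℝ) = 4 * z - 2 * z' := by
    have : (r 2 y (m + 1) : ℝ) = 2 * T 2 y m - T 2 y (m + 1) := by linarith
    rw [this]
    have e1 : T 2 y m = 2 * z - B * ep 2 y m := by linarith
    have e2 : T 2 y (m + 1) = 2 * z' - B * ep 2 y (m + 1) := by linarith
    rw [e1, e2, h2]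
    ring
  exact_mod_cast h3

open Classical in
/-- the places with a large tail -/
noncomputable def qq (y : ℝ) (B : ℤ) (m : ℕ) : ℝ :=
  if Gd y B m ∧ 4 ≤ T 2 y m + B * ep 2 y m then 1 else 0

omit hy0 hy1 hirr hq in
lemma qq_nonneg (m : ℕ) : 0 ≤ qq y B m := by
  unfold qq; split_ifs <;> norm_num

open Classical in
lemma T_ge {m : ℕ} (hm : 1 ≤ m) :
    2 * (if Gd y B m then (1 : ℝ) else 0) + 2 * qq y B m - |(B : ℝ)| * ep 2 y m ≤ T 2 y m := by
  have hep := ep_nonneg (b := 2) hy0 m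
  have hT := T_pos (b := 2) le_rfl hy0 hy1 hirr m
  have habs : B * ep 2 y m ≤ |(B : ℝ)| * ep 2 y m :=
    mul_le_mul_of_nonneg_right (le_abs_self _) hep
  have h0 : 0 ≤ |(B : ℝ)| * ep 2 y m := mul_nonneg (abs_nonneg _) hep
  unfold qq
  by_cases h : Gd y B m
  · obtain ⟨z, hz1, hz2⟩ := gd_int hy0 hy1 hirr hq hm h
    have hz1R : (1 : ℝ) ≤ z := by exact_mod_cast hz1
    by_cases h4 : 4 ≤ T 2 y m + B * ep 2 y m
    · rw [if_pos h, if_pos ⟨h, h4⟩]; linarith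
    · rw [if_pos h, if_neg (fun hh => h4 hh.2)]; linarith
  · rw [if_neg h, if_neg (fun hh => h hh.1)]; linarith

open Classical in
lemma ind_two {m : ℕ} (hm : 1 ≤ m) : (if r 2 y (m + 1) = 2 then (0 : ℝ) else 1) ≤
    (if Gd y B m then 0 else 1) + (if Gd y B (m + 1) then 0 else 1) +
      qq y B m + qq y B (m + 1) := by
  have hq1 := qq_nonneg (y := y) (B := B) m
  have hq2 := qq_nonneg (y := y) (B := B) (m + 1)
  have g : ∀ P : Prop, [Decidable P] → (0 : ℝ) ≤ (if P then 0 else 1) ∧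
      (if P then (0 : ℝ) else 1) ≤ 1 := by
    intro P _; split_ifs <;> norm_num
  by_cases h : Gd y B m
  · by_cases h' : Gd y B (m + 1)
    · obtain ⟨z, z', hz, hz', e1, e2, e3⟩ := gd_two hy0 hy1 hirr hq hm h h'
      rw [if_pos h, if_pos h']
      by_cases hz2 : 2 ≤ z
      · have : (2 : ℝ) ≤ z := by exact_mod_cast hz2
        have h5 : qq y B m = 1 := by
          unfold qq; rw [if_pos ⟨h, by rw [e1]; linarith⟩]
        rw [h5]
        have := (g (r 2 y (m + 1) = 2)).2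
        linarith
      · by_cases hz2' : 2 ≤ z'
        · have : (2 : ℝ) ≤ z' := by exact_mod_cast hz2'
          have h5 : qq y B (m + 1) = 1 := by
            unfold qq; rw [if_pos ⟨h', by rw [e2]; linarith⟩]
          rw [h5]
          have := (g (r 2 y (m + 1) = 2)).2
          linarith
        · have h6 : r 2 y (m + 1) = 2 := by omega
          rw [if_pos h6]
          linarith
    · rw [if_pos h, if_neg h']
      have := (g (r 2 y (m + 1) = 2)).2
      linarith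
  · rw [if_neg h]
    have h1 := (g (r 2 y (m + 1) = 2)).2
    have h2 := (g (Gd y B (m + 1))).1
    linarith

open Classical in
lemma ind_zero {m : ℕ} (hm : 1 ≤ m) : (if 0 < r 2 y (m + 1) then (0 : ℝ) else 1) ≤
    (if Gd y B m then 0 else 1) + (if Gd y B (m + 1) then 0 else 1) + qq y B (m + 1) := by
  have hq2 := qq_nonneg (y := y) (B := B) (m + 1)
  have g : ∀ P : Prop, [Decidable P] → (0 : ℝ) ≤ (if P then 0 else 1) ∧
      (if P then (0 : ℝ) else 1) ≤ 1 := by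
    intro P _; split_ifs <;> norm_num
  by_cases h : Gd y B m
  · by_cases h' : Gd y B (m + 1)
    · obtain ⟨z, z', hz, hz', e1, e2, e3⟩ := gd_two hy0 hy1 hirr hq hm h h'
      rw [if_pos h, if_pos h']
      by_cases h6 : 0 < r 2 y (m + 1)
      · rw [if_pos h6]; linarith
      · have hz2' : 2 ≤ z' := by omega
        have : (2 : ℝ) ≤ z' := by exact_mod_cast hz2'
        have h5 : qq y B (m + 1) = 1 := by
          unfold qq; rw [if_pos ⟨h', by rw [e2]; linarith⟩]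
        rw [h5, if_neg h6]
        linarith
    · rw [if_pos h, if_neg h']
      have := (g (0 < r 2 y (m + 1))).2
      linarith
  · rw [if_neg h]
    have h1 := (g (0 < r 2 y (m + 1))).2
    have h2 := (g (Gd y B (m + 1))).1
    linarith

lemma halg : IsAlgebraic ℚ y := by
  refine ⟨Polynomial.X ^ 2 + Polynomial.C (B : ℚ) * Polynomial.X +
    Polynomial.C (C : ℚ), ?_, ?_⟩
  · intro h
    have h1 := congrArg (fun p => Polynomial.coeff p 2) h
    simp only [Polynomial.coeff_add, Polynomial.coeff_C_mul, Polynomial.coeff_X_pow,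
      Polynomial.coeff_X, Polynomial.coeff_C, Polynomial.coeff_zero] at h1
    norm_num at h1
  · simp only [map_add, map_mul, map_pow, Polynomial.aeval_X, Polynomial.aeval_C]
    simpa using hq

open Classical in
/-- few places are not good -/
lemma few (δ : ℝ) (hδ : 0 < δ) (hδ1 : δ ≤ 1 / 4) : ∃ C1 : ℝ, 0 ≤ C1 ∧ ∀ n : ℕ,
    ∑ m ∈ range n, (if Gd y B m then (0 : ℝ) else 1) ≤ C1 * (K 2 y n + 1) + δ * n := by
  obtain ⟨C1, hC10, hC1⟩ := bad_count (b := 2) le_rfl hy0 hy1 (halg hy0 hy1 hirr hq) hirr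
    |(B : ℝ)| δ hδ hδ1
  refine ⟨C1 + 2, by linarith, fun n => ?_⟩
  have h2 : (∑ m ∈ range n, (x 2 y m : ℝ)) ≤ K 2 y n := by
    unfold K
    exact_mod_cast sum_le_sum_of_subset (range_mono (Nat.le_succ n))
  have h3 : (∑ m ∈ range n, (exc 2 y m : ℝ)) ≤ K 2 y n := by
    exact_mod_cast exc_sum 2 y n
  have h4 : (∑ m ∈ range n, (if T 2 y m ≤ |(B : ℝ)| * ep 2 y m then (1 : ℝ) else 0)) ≤
      C1 * (K 2 y n + 1) + δ * n := by
    have h5 := hC1 n
    rw [card_filter] at h5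
    push_cast at h5
    exact h5
  have h5 : ∑ m ∈ range n, (if Gd y B m then (0 : ℝ) else 1) ≤
      ∑ m ∈ range n, ((x 2 y m : ℝ) + exc 2 y m +
        (if T 2 y m ≤ |(B : ℝ)| * ep 2 y m then (1 : ℝ) else 0)) := by
    refine sum_le_sum fun m _ => ?_
    have e1 : (0 : ℝ) ≤ x 2 y m := Nat.cast_nonneg _
    have e2 : (0 : ℝ) ≤ exc 2 y m := Nat.cast_nonneg _
    by_cases h : Gd y B m
    · rw [if_pos h]
      split_ifs <;> linarith
    · rw [if_neg h]
      by_cases h6 : x 2 y m = 0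
      · by_cases h7 : exc 2 y m = 0
        · have h8 : T 2 y m ≤ |(B : ℝ)| * ep 2 y m := by
            by_contra hcon
            push Not at hcon
            exact h ⟨h6, h7, hcon⟩
          rw [if_pos h8]
          linarith
        · have : (1 : ℝ) ≤ exc 2 y m := by exact_mod_cast Nat.one_le_iff_ne_zero.2 h7
          split_ifs <;> linarith
      · have : (1 : ℝ) ≤ x 2 y m := by exact_mod_cast Nat.one_le_iff_ne_zero.2 h6
        split_ifs <;> linarith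
  rw [sum_add_distrib, sum_add_distrib] at h5
  have h6 : (C1 + 2) * ((K 2 y n : ℝ) + 1) = C1 * (K 2 y n + 1) + 2 * K 2 y n + 2 := by ring
  linarith

omit hy0 hy1 hirr hq in
lemma shift1 (f : ℕ → ℝ) (hf : ∀ m, 0 ≤ f m) (n : ℕ) :
    ∑ m ∈ range n, f (m + 1) ≤ ∑ m ∈ range (n + 2), f m := by
  rw [sum_range_succ, sum_range_succ']
  have := hf 0
  have := hf (n + 1)
  linarith

omit hy0 hy1 hirr hq in
lemma shift2 (f : ℕ → ℝ) (hf : ∀ m, 0 ≤ f m) (n : ℕ) :
    ∑ m ∈ range n, f (m + 1 + 1) ≤ ∑ m ∈ range (n + 2), f m := by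
  rw [sum_range_succ', sum_range_succ']
  have := hf 0
  have := hf (0 + 1)
  linarith

omit hy0 hy1 hirr hq in
lemma shift3 (f : ℕ → ℝ) (hf : ∀ m, 0 ≤ f m) (c : ℝ) (hc : ∀ m, f m ≤ c) (n : ℕ) :
    ∑ m ∈ range n, f (m + 1) ≤ ∑ m ∈ range n, f m + c := by
  have h1 := sum_range_succ f n
  rw [sum_range_succ'] at h1
  have := hf 0
  have := hc n
  linarith

omit hy0 hy1 hirr hq in
lemma shift4 (f : ℕ → ℝ) (hf : ∀ m, 0 ≤ f m) (c : ℝ) (hc : ∀ m, f m ≤ c) (n : ℕ) :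
    ∑ m ∈ range n, f m ≤ ∑ m ∈ range n, f (m + 1) + c := by
  have h1 := sum_range_succ f n
  rw [sum_range_succ'] at h1
  have := hf n
  have := hc 0
  linarith

open Classical in
/-- the number of places that are not good -/
noncomputable def EE (y : ℝ) (B : ℤ) (n : ℕ) : ℝ :=
  ∑ m ∈ range (n + 2), (if Gd y B m then (0 : ℝ) else 1)

/-- the sum of the fractional parts -/
noncomputable def PP (y : ℝ) (n : ℕ) : ℝ := ∑ m ∈ range (n + 2), ep 2 y m

/-- the number of pairs of places whose sum is at most `n` -/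
noncomputable def RR (y : ℝ) (n : ℕ) : ℝ := ∑ m ∈ range n, (r 2 y (m + 1) : ℝ)

open Classical in
/-- the number of sums -/
noncomputable def SS (y : ℝ) (n : ℕ) : ℝ := ∑ m ∈ range n, (if 0 < r 2 y (m + 1) then (1 : ℝ) else 0)

open Classical in
/-- the number of places that are a sum in exactly one way -/
noncomputable def UU (y : ℝ) (n : ℕ) : ℝ := ∑ m ∈ range n, (if r 2 y (m + 1) = 2 then (1 : ℝ) else 0)

lemma sum_T' (n : ℕ) : ∑ m ∈ range n, T 2 y (m + 1) ≤ RR y n + 2 * (K 2 y n + 1) := by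
  have h1 : ∀ n : ℕ, ∑ m ∈ range n, T 2 y (m + 1) + 2 * T 2 y 0 = RR y n + 2 * T 2 y n := by
    intro n
    induction n with
    | zero => simp [RR]
    | succ n ih =>
      rw [sum_range_succ, T_succ le_rfl hy0 hy1]
      unfold RR at ih ⊢
      rw [sum_range_succ]
      push_cast
      linarith
  have h2 := h1 n
  have h3 := T_pos le_rfl hy0 hy1 hirr (b := 2) 0
  have h4 := T_le le_rfl hy0 hy1 (b := 2) n
  linarith

lemma RR_le (n : ℕ) : RR y n ≤ (K 2 y n : ℝ) ^ 2 := by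
  have h6 := sum_r_le 2 y n
  rw [sum_range_succ'] at h6
  have h7 : ∑ m ∈ range n, r 2 y (m + 1) ≤ K 2 y n ^ 2 := by omega
  unfold RR
  exact_mod_cast h7

lemma PP_nonneg (n : ℕ) : 0 ≤ PP y n :=
  sum_nonneg fun m _ => ep_nonneg (b := 2) hy0 m

open Classical in
omit hy0 hy1 hirr hq in
lemma ind_nonneg (m : ℕ) : (0 : ℝ) ≤ (if Gd y B m then (0 : ℝ) else 1) := by
  split_ifs <;> norm_num

omit hy0 hy1 hirr hq in
lemma EE_nonneg (n : ℕ) : 0 ≤ EE y B n := sum_nonneg fun m _ => ind_nonneg m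

/-- the case of unique sums -/
lemma main_U (n : ℕ) : 3 * (n : ℝ) ≤ RR y n + UU y n + 2 * (K 2 y n + 1) + 4 * EE y B n +
    |(B : ℝ)| * PP y n + 2 := by
  classical
  set Q : ℝ := ∑ m ∈ range n, qq y B (m + 1) with hQ
  have hqq1 : ∀ m, qq y B m ≤ 1 := by intro m; unfold qq; split_ifs <;> norm_num
  have hE1 : ∑ m ∈ range n, (if Gd y B (m + 1) then (0 : ℝ) else 1) ≤ EE y B n :=
    shift1 (fun m => if Gd y B m then (0 : ℝ) else 1) (fun m => ind_nonneg m) n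
  have hE2 : ∑ m ∈ range n, (if Gd y B (m + 1 + 1) then (0 : ℝ) else 1) ≤ EE y B n :=
    shift2 (fun m => if Gd y B m then (0 : ℝ) else 1) (fun m => ind_nonneg m) n
  have hP1 : ∑ m ∈ range n, ep 2 y (m + 1) ≤ PP y n :=
    shift1 (fun m => ep 2 y m) (fun m => ep_nonneg (b := 2) hy0 m) n
  have hQ2 : ∑ m ∈ range n, qq y B (m + 1 + 1) ≤ Q + 1 :=
    shift3 (fun m => qq y B (m + 1)) (fun m => qq_nonneg (m + 1)) 1 (fun m => hqq1 (m + 1)) n
  have h4 : ∑ m ∈ range n, (2 * (if Gd y B (m + 1) then (1 : ℝ) else 0) +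
      2 * qq y B (m + 1) - |(B : ℝ)| * ep 2 y (m + 1)) ≤ ∑ m ∈ range n, T 2 y (m + 1) :=
    sum_le_sum fun m _ => T_ge hy0 hy1 hirr hq (by omega)
  rw [sum_sub_distrib, sum_add_distrib, ← mul_sum, ← mul_sum, ← mul_sum] at h4
  have h5 : ∑ m ∈ range n, (if Gd y B (m + 1) then (1 : ℝ) else 0) =
      n - ∑ m ∈ range n, (if Gd y B (m + 1) then (0 : ℝ) else 1) := by
    rw [eq_sub_iff_add_eq, ← sum_add_distrib]
    have : ∀ m ∈ range n, ((if Gd y B (m + 1) then (1 : ℝ) else 0) +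
        if Gd y B (m + 1) then (0 : ℝ) else 1) = 1 := by
      intro m _; split_ifs <;> norm_num
    rw [sum_congr rfl this]
    simp
  have h6 := sum_T' hy0 hy1 hirr hq n
  have h7 := mul_le_mul_of_nonneg_left hP1 (abs_nonneg (B : ℝ))
  have h8 : ∑ m ∈ range n, (if r 2 y (m + 1 + 1) = 2 then (0 : ℝ) else 1) ≤
      2 * EE y B n + 2 * Q + 1 := by
    have h2 := sum_le_sum (s := range n) fun m _ =>
      ind_two hy0 hy1 hirr hq (m := m + 1) (by omega)
    rw [sum_add_distrib, sum_add_distrib, sum_add_distrib] at h2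
    linarith
  have h9 : ∑ m ∈ range n, (if r 2 y (m + 1) = 2 then (0 : ℝ) else 1) ≤
      ∑ m ∈ range n, (if r 2 y (m + 1 + 1) = 2 then (0 : ℝ) else 1) + 1 :=
    shift4 (fun m => if r 2 y (m + 1) = 2 then (0 : ℝ) else 1)
      (fun m => by split_ifs <;> norm_num) 1 (fun m => by split_ifs <;> norm_num) n
  have h10 : UU y n = n - ∑ m ∈ range n, (if r 2 y (m + 1) = 2 then (0 : ℝ) else 1) := by
    unfold UU
    rw [eq_sub_iff_add_eq, ← sum_add_distrib]
    have : ∀ m ∈ range n, ((if r 2 y (m + 1) = 2 then (1 : ℝ) else 0) +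
        if r 2 y (m + 1) = 2 then (0 : ℝ) else 1) = 1 := by
      intro m _; split_ifs <;> norm_num
    rw [sum_congr rfl this]
    simp
  linarith

open Classical in
lemma T_ge_two {m : ℕ} (hm : 1 ≤ m) :
    2 - 2 * (if Gd y B m then (0 : ℝ) else 1) - |(B : ℝ)| * ep 2 y m ≤ min (T 2 y m) 2 := by
  have hep := ep_nonneg (b := 2) hy0 m
  have hT := T_pos (b := 2) le_rfl hy0 hy1 hirr m
  have h0 : 0 ≤ |(B : ℝ)| * ep 2 y m := mul_nonneg (abs_nonneg _) hep
  have h1 := T_ge hy0 hy1 hirr hq hm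
  have h2 := qq_nonneg (y := y) (B := B) m
  by_cases h : Gd y B m
  · rw [if_pos h] at h1 ⊢
    refine le_min ?_ ?_ <;> linarith
  · rw [if_neg h]
    refine le_min ?_ ?_ <;> linarith

open Classical in
lemma trunc_step (g m : ℕ) (hm : 1 ≤ m) :
    2 * min (T 2 y m) (2 ^ (g + 1)) - (2 ^ (g + 2) - 2) * (if 0 < r 2 y (m + 1) then (1 : ℝ) else 0) -
      2 * (if Gd y B (m + 1) then (0 : ℝ) else 1) - |(B : ℝ)| * ep 2 y (m + 1) ≤
      min (T 2 y (m + 1)) (2 ^ (g + 2)) := by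
  have hep := ep_nonneg (b := 2) hy0 (m + 1)
  have h0 : 0 ≤ |(B : ℝ)| * ep 2 y (m + 1) := mul_nonneg (abs_nonneg _) hep
  have hi := ind_nonneg (y := y) (B := B) (m + 1)
  have hp : (2 : ℝ) ^ (g + 2) = 2 * 2 ^ (g + 1) := by ring
  have hp2 : (2 : ℝ) ≤ 2 ^ (g + 2) := by
    have : (1 : ℝ) ≤ 2 ^ (g + 1) := one_le_pow₀ (by norm_num)
    rw [hp]; linarith
  by_cases h : 0 < r 2 y (m + 1)
  · rw [if_pos h]
    have h1 := T_ge_two hy0 hy1 hirr hq (m := m + 1) (by omega)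
    have h2 : min (T 2 y (m + 1)) 2 ≤ min (T 2 y (m + 1)) (2 ^ (g + 2)) :=
      min_le_min_left _ hp2
    have h3 : min (T 2 y m) (2 ^ (g + 1)) ≤ 2 ^ (g + 1) := min_le_right _ _
    linarith
  · rw [if_neg h]
    have h1 := T_succ (b := 2) le_rfl hy0 hy1 m
    have h2 : (r 2 y (m + 1) : ℝ) = 0 := by
      have : r 2 y (m + 1) = 0 := by omega
      rw [this]; norm_num
    push_cast at h1
    rw [h2, sub_zero] at h1
    rw [h1, hp]
    have h3 : min (2 * T 2 y m) (2 * 2 ^ (g + 1)) = 2 * min (T 2 y m) (2 ^ (g + 1)) :=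
      (mul_min_of_nonneg _ _ (by norm_num)).symm
    rw [h3]
    linarith

/-- the family of linear inequalities -/
lemma main_S (g : ℕ) : ∃ c : ℝ, 0 ≤ c ∧ ∀ n : ℕ,
    2 ^ (g + 1) * (n : ℝ) ≤ ∑ m ∈ range n, min (T 2 y (m + 1)) (2 ^ (g + 1)) +
      2 * (((g : ℝ) - 1) * 2 ^ g + 1) * SS y n + c * (EE y B n + |(B : ℝ)| * PP y n + 1) := by
  classical
  induction g with
  | zero =>
    refine ⟨2, by norm_num, fun n => ?_⟩
    have hE1 : ∑ m ∈ range n, (if Gd y B (m + 1) then (0 : ℝ) else 1) ≤ EE y B n :=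
      shift1 (fun m => if Gd y B m then (0 : ℝ) else 1) (fun m => ind_nonneg m) n
    have hP1 : ∑ m ∈ range n, ep 2 y (m + 1) ≤ PP y n :=
      shift1 (fun m => ep 2 y m) (fun m => ep_nonneg (b := 2) hy0 m) n
    have h7 := mul_le_mul_of_nonneg_left hP1 (abs_nonneg (B : ℝ))
    have h8 : 0 ≤ |(B : ℝ)| * PP y n := mul_nonneg (abs_nonneg _) (PP_nonneg hy0 hy1 hirr hq n)
    have h4 : ∑ m ∈ range n, (2 - 2 * (if Gd y B (m + 1) then (0 : ℝ) else 1) -
        |(B : ℝ)| * ep 2 y (m + 1)) ≤ ∑ m ∈ range n, min (T 2 y (m + 1)) 2 :=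
      sum_le_sum fun m _ => T_ge_two hy0 hy1 hirr hq (by omega)
    rw [sum_sub_distrib, sum_sub_distrib, ← mul_sum, ← mul_sum, sum_const, card_range,
      nsmul_eq_mul] at h4
    norm_num
    linarith
  | succ g ih =>
    obtain ⟨c, hc0, hc⟩ := ih
    refine ⟨2 * c + 2 * 2 ^ (g + 2) + 2, by positivity, fun n => ?_⟩
    have h1 := hc n
    have hE2 : ∑ m ∈ range n, (if Gd y B (m + 1 + 1) then (0 : ℝ) else 1) ≤ EE y B n :=
      shift2 (fun m => if Gd y B m then (0 : ℝ) else 1) (fun m => ind_nonneg m) n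
    have hP2 : ∑ m ∈ range n, ep 2 y (m + 1 + 1) ≤ PP y n :=
      shift2 (fun m => ep 2 y m) (fun m => ep_nonneg (b := 2) hy0 m) n
    have h7 := mul_le_mul_of_nonneg_left hP2 (abs_nonneg (B : ℝ))
    have hB0 : 0 ≤ |(B : ℝ)| * PP y n := mul_nonneg (abs_nonneg _) (PP_nonneg hy0 hy1 hirr hq n)
    have hE0 := EE_nonneg (y := y) (B := B) n
    have h4 := sum_le_sum (s := range n) fun m _ =>
      trunc_step hy0 hy1 hirr hq g (m + 1) (by omega)
    rw [sum_sub_distrib, sum_sub_distrib, sum_sub_distrib, ← mul_sum, ← mul_sum, ← mul_sum,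
      ← mul_sum] at h4
    have h5 : ∑ m ∈ range n, min (T 2 y (m + 1 + 1)) (2 ^ (g + 2)) ≤
        ∑ m ∈ range n, min (T 2 y (m + 1)) (2 ^ (g + 2)) + 2 ^ (g + 2) :=
      shift3 (fun m => min (T 2 y (m + 1)) (2 ^ (g + 2)))
        (fun m => le_min (T_pos (b := 2) le_rfl hy0 hy1 hirr _).le (by positivity)) _
        (fun m => min_le_right _ _) n
    have h6 : ∑ m ∈ range n, (if 0 < r 2 y (m + 1 + 1) then (1 : ℝ) else 0) ≤ SS y n + 1 :=
      shift3 (fun m => if 0 < r 2 y (m + 1) then (1 : ℝ) else 0)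
        (fun m => by split_ifs <;> norm_num) 1 (fun m => by split_ifs <;> norm_num) n
    have hp2 : (0 : ℝ) ≤ 2 ^ (g + 2) - 2 := by
      have h1 : (1 : ℝ) ≤ 2 ^ (g + 1) := one_le_pow₀ (by norm_num)
      have h2 : (2 : ℝ) ^ (g + 2) = 2 * 2 ^ (g + 1) := by ring
      rw [h2]; linarith
    have h9 := mul_le_mul_of_nonneg_left h6 hp2
    have hW : 0 ≤ (2 : ℝ) ^ (g + 2) * (EE y B n + |(B : ℝ)| * PP y n) := by positivity
    have e1 : (2 : ℝ) ^ (g + 1 + 1) * (n : ℝ) = 2 * (2 ^ (g + 1) * n) := by ring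
    have e2 : 2 * ((((g + 1 : ℕ) : ℝ) - 1) * 2 ^ (g + 1) + 1) * SS y n =
        2 * (2 * (((g : ℝ) - 1) * 2 ^ g + 1) * SS y n) + (2 ^ (g + 2) - 2) * SS y n := by
      push_cast; ring
    have e3 : (2 * c + 2 * 2 ^ (g + 2) + 2) * (EE y B n + |(B : ℝ)| * PP y n + 1) =
        2 * (c * (EE y B n + |(B : ℝ)| * PP y n + 1)) +
          2 * (2 ^ (g + 2) * (EE y B n + |(B : ℝ)| * PP y n)) + 2 * 2 ^ (g + 2) +
          2 * (EE y B n + |(B : ℝ)| * PP y n) + 2 := by ring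
    rw [e1, e2, e3]
    linarith

/-- the main inequalities -/
theorem main (g : ℕ) (δ : ℝ) (hδ : 0 < δ) : ∃ C2 : ℝ, 0 ≤ C2 ∧ ∀ n : ℕ,
    (3 - δ) * n ≤ RR y n + UU y n + C2 * (K 2 y n + 1) ∧
    (2 ^ (g + 1) - δ) * n ≤ RR y n + 2 * (((g : ℝ) - 1) * 2 ^ g + 1) * SS y n +
      C2 * (K 2 y n + 1) := by
  obtain ⟨c, hc0, hc⟩ := main_S hy0 hy1 hirr hq g
  set δ' : ℝ := min (δ / (c + 4)) (1 / 4) with hδ'
  have hδ'0 : 0 < δ' := lt_min (by positivity) (by norm_num)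
  have hδ'1 : δ' * (c + 4) ≤ δ := by
    have h1 : δ' ≤ δ / (c + 4) := min_le_left _ _
    rwa [le_div_iff₀ (by positivity)] at h1
  obtain ⟨C1, hC10, hC1⟩ := few hy0 hy1 hirr hq δ' hδ'0 (min_le_right _ _)
  refine ⟨(c + 4) * (3 * C1 + 3 * |(B : ℝ)| + 2), by positivity, fun n => ?_⟩
  set N := n + 2 with hN
  have hKN : (K 2 y N : ℝ) ≤ K 2 y n + 2 := by
    have h1 : K 2 y N = K 2 y n + x 2 y (n + 1) + x 2 y (n + 2) := by
      unfold K; rw [hN, sum_range_succ, sum_range_succ]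
    have h2 : x 2 y (n + 1) < 2 := Nat.mod_lt _ (by norm_num)
    have h3 : x 2 y (n + 2) < 2 := Nat.mod_lt _ (by norm_num)
    exact_mod_cast (by omega : K 2 y N ≤ K 2 y n + 2)
  have hK0 : (0 : ℝ) ≤ K 2 y n := Nat.cast_nonneg _
  have hn0 : (0 : ℝ) ≤ n := Nat.cast_nonneg _
  have hEle : EE y B n ≤ 3 * C1 * (K 2 y n + 1) + δ' * n + 2 * δ' := by
    have h1 := hC1 N
    have h2 : C1 * ((K 2 y N : ℝ) + 1) ≤ C1 * (3 * (K 2 y n + 1)) :=
      mul_le_mul_of_nonneg_left (by linarith) hC10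
    have h3 : (N : ℝ) = n + 2 := by rw [hN]; push_cast; ring
    rw [h3] at h1
    unfold EE
    linarith
  have hE0 := EE_nonneg (y := y) (B := B) n
  have hPle : PP y n ≤ 3 * (K 2 y n + 1) := by
    have h1 := ep_sum (b := 2) le_rfl hy0 hy1 N
    unfold PP
    linarith
  have hP0 := PP_nonneg hy0 hy1 hirr hq n
  have hBP : |(B : ℝ)| * PP y n ≤ 3 * |(B : ℝ)| * (K 2 y n + 1) := by
    have h1 := mul_le_mul_of_nonneg_left hPle (abs_nonneg (B : ℝ))
    linarith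
  have hBP0 : 0 ≤ |(B : ℝ)| * PP y n := mul_nonneg (abs_nonneg _) hP0
  have hδ'4 : δ' ≤ 1 / 4 := min_le_right _ _
  -- the common error
  have herr : ∀ a : ℝ, 0 ≤ a → a ≤ c + 4 → a * (EE y B n + |(B : ℝ)| * PP y n + 1) ≤
      (c + 4) * (3 * C1 + 3 * |(B : ℝ)| + 2) * (K 2 y n + 1) - 2 * (K 2 y n + 1) + δ * n := by
    intro a ha ha2
    have h1 : a * (EE y B n + |(B : ℝ)| * PP y n + 1) ≤
        (c + 4) * (EE y B n + |(B : ℝ)| * PP y n + 1) :=
      mul_le_mul_of_nonneg_right ha2 (by linarith)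
    have h2 : (c + 4) * (EE y B n + |(B : ℝ)| * PP y n + 1) ≤
        (c + 4) * ((3 * C1 + 3 * |(B : ℝ)|) * (K 2 y n + 1) + δ' * n + 3 / 2) :=
      mul_le_mul_of_nonneg_left (by linarith) (by linarith)
    have h3 : δ' * (c + 4) * n ≤ δ * n := mul_le_mul_of_nonneg_right hδ'1 hn0
    have h4 : 0 ≤ (c + 4) * (K 2 y n : ℝ) := mul_nonneg (by linarith) hK0
    have e1 : (c + 4) * ((3 * C1 + 3 * |(B : ℝ)|) * (K 2 y n + 1) + δ' * n + 3 / 2) =
        (c + 4) * (3 * C1 + 3 * |(B : ℝ)| + 2) * (K 2 y n + 1) + δ' * (c + 4) * n -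
          2 * ((c + 4) * (K 2 y n : ℝ)) - (c + 4) / 2 := by ring
    have h5 : 0 ≤ c * (K 2 y n : ℝ) := mul_nonneg hc0 hK0
    have e2 : (c + 4) * (K 2 y n : ℝ) = c * K 2 y n + 4 * K 2 y n := by ring
    rw [e1, e2] at h2
    linarith
  constructor
  · have h1 := main_U hy0 hy1 hirr hq n
    have h2 := herr 4 (by norm_num) (by linarith)
    linarith
  · have h1 := hc n
    have h2 := herr c hc0 (by linarith)
    have h3 : ∑ m ∈ range n, min (T 2 y (m + 1)) (2 ^ (g + 1)) ≤ ∑ m ∈ range n, T 2 y (m + 1) :=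
      sum_le_sum fun m _ => min_le_left _ _
    have h4 := sum_T' hy0 hy1 hirr hq n
    linarith

end

end Pool.Agent.L7h21.Sq.Uniq
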